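import Pool.Agent.Run7.h814.PFN.Iface

/-! # Piece CHAIN of project PFN (pigeonhole over the scales and the coordinates), by helper751 -/

set_option autoImplicit false

namespace Run7.h814.PFN.CHAIN

open Run7.h814.PFN Finset

/-- the integer vectors with the same first `j` coordinates as `x` -/
def fib {R : ℕ} (j : ℕ) (x : Fin R → ℤ) : Set (Fin R → ℤ) :=
  {k | ∀ i : Fin R, (i : ℕ) < j → k i = x i}

lemma sums_finite {H : Type*} [AddCommMonoid H] {S : Set H} (hS : S.Finite) (m : ℕ) :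
    (sums m S).Finite := by
  have h : (Set.pi Set.univ (fun _ : Fin m => S)).Finite := Set.Finite.pi (fun _ => hS)
  refine (h.image (fun f : Fin m → H => ∑ i, f i)).subset ?_
  rintro x ⟨f, hf, rfl⟩
  exact ⟨f, fun i _ => hf i, rfl⟩

section
variable {G : Type} [AddCommGroup G] {R : ℕ}

/-- the largest number of values of `V` on a fibre of `A` -/
noncomputable def Fm (V : (Fin R → ℤ) →+ G) (A : Set (Fin R → ℤ)) (j : ℕ) : ℕ :=
  sSup (Set.range fun x => (V '' (A ∩ fib j x)).ncard)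

lemma bdd (V : (Fin R → ℤ) →+ G) {A : Set (Fin R → ℤ)} (hA : A.Finite) (j : ℕ) :
    BddAbove (Set.range fun x => (V '' (A ∩ fib j x)).ncard) :=
  ⟨(V '' A).ncard, by
    rintro _ ⟨x, rfl⟩
    exact Set.ncard_le_ncard (Set.image_mono Set.inter_subset_left) (hA.image _)⟩

lemma le_Fm (V : (Fin R → ℤ) →+ G) {A : Set (Fin R → ℤ)} (hA : A.Finite) (j : ℕ)
    (x : Fin R → ℤ) : (V '' (A ∩ fib j x)).ncard ≤ Fm V A j :=
  le_csSup (bdd V hA j) ⟨x, rfl⟩

lemma exists_Fm (V : (Fin R → ℤ) →+ G) {A : Set (Fin R → ℤ)} (hA : A.Finite) (j : ℕ) :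
    ∃ x, (V '' (A ∩ fib j x)).ncard = Fm V A j :=
  Nat.sSup_mem (Set.range_nonempty _) (bdd V hA j)

lemma Fm_zero (V : (Fin R → ℤ) →+ G) {A : Set (Fin R → ℤ)} (hA : A.Finite) :
    (V '' A).ncard ≤ Fm V A 0 := by
  have h := le_Fm V hA 0 0
  have e : A ∩ fib 0 (0 : Fin R → ℤ) = A := by
    ext k
    simp [fib]
  rwa [e] at h

lemma Fm_top (V : (Fin R → ℤ) →+ G) {A : Set (Fin R → ℤ)} (hA : A.Finite) :
    Fm V A R ≤ 1 := by
  obtain ⟨x, hx⟩ := exists_Fm V hA R
  rw [← hx]
  refine (Set.ncard_le_ncard (t := {V x}) ?_ (Set.finite_singleton _)).trans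
    (Set.ncard_singleton _).le
  rintro _ ⟨k, ⟨_, hk⟩, rfl⟩
  have : k = x := funext fun i => hk i i.2
  rw [this]
  rfl

lemma Fm_succ_le (V : (Fin R → ℤ) →+ G) {A : Set (Fin R → ℤ)} (hA : A.Finite) (j : ℕ) :
    Fm V A (j + 1) ≤ Fm V A j := by
  obtain ⟨x, hx⟩ := exists_Fm V hA (j + 1)
  rw [← hx]
  refine (Set.ncard_le_ncard (Set.image_mono ?_) ((hA.inter_of_left _).image _)).trans
    (le_Fm V hA j x)
  rintro k ⟨h1, h2⟩
  exact ⟨h1, fun i hi => h2 i (by omega)⟩

lemma Fm_anti (V : (Fin R → ℤ) →+ G) {A : Set (Fin R → ℤ)} (hA : A.Finite) :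
    Antitone (Fm V A) := antitone_nat_of_succ_le (Fm_succ_le V hA)

/-- going down one coordinate -/
lemma Fm_le (V : (Fin R → ℤ) →+ G) {A : Set (Fin R → ℤ)} (hA : A.Finite) (N : ℕ)
    (hN : ∀ k ∈ A, ∀ i, 0 ≤ k i ∧ k i < N) {j : ℕ} (hj : j < R) :
    Fm V A j ≤ N * Fm V A (j + 1) := by
  obtain ⟨x, hx⟩ := exists_Fm V hA j
  rw [← hx]
  have hsub : V '' (A ∩ fib j x) ⊆ ⋃ c ∈ Finset.range N,
      V '' (A ∩ fib (j + 1) (Function.update x ⟨j, hj⟩ (c : ℤ))) := by
    rintro _ ⟨k, ⟨h1, h2⟩, rfl⟩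
    have h3 := hN k h1 ⟨j, hj⟩
    simp only [Set.mem_iUnion]
    refine ⟨(k ⟨j, hj⟩).toNat, Finset.mem_range.2 (by omega), k, ⟨h1, fun i hi => ?_⟩, rfl⟩
    rcases Nat.lt_or_ge (i : ℕ) j with h4 | h4
    · have hne : i ≠ ⟨j, hj⟩ := by
        intro h
        rw [h] at h4
        exact lt_irrefl _ h4
      rw [Function.update_of_ne hne]
      exact h2 i h4
    · have he : i = ⟨j, hj⟩ := Fin.ext (by
        show (i : ℕ) = j
        omega)
      rw [he, Function.update_self]
      exact (Int.toNat_of_nonneg h3.1).symm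
  refine (Set.ncard_le_ncard hsub ?_).trans ((Finset.set_ncard_biUnion_le _ _).trans ?_)
  · exact Set.Finite.biUnion (Finset.finite_toSet _)
      fun c _ => (hA.inter_of_left _).image _
  · refine (Finset.sum_le_card_nsmul _ _ (Fm V A (j + 1)) fun c _ => le_Fm V hA _ _).trans ?_
    rw [Finset.card_range, smul_eq_mul]

lemma Fm_le_pow (V : (Fin R → ℤ) →+ G) {A : Set (Fin R → ℤ)} (hA : A.Finite) (N : ℕ)
    (hN : ∀ k ∈ A, ∀ i, 0 ≤ k i ∧ k i < N) (j d : ℕ) (hj : j + d ≤ R) :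
    Fm V A j ≤ N ^ d * Fm V A (j + d) := by
  induction d with
  | zero => simp
  | succ d ih =>
    refine (ih (by omega)).trans ?_
    have h := Fm_le V hA N hN (j := j + d) (by omega)
    calc N ^ d * Fm V A (j + d) ≤ N ^ d * (N * Fm V A (j + d + 1)) := Nat.mul_le_mul_left _ h
      _ = N ^ (d + 1) * Fm V A (j + (d + 1)) := by rw [pow_succ, mul_assoc]; rfl

end

lemma sums_mem_mul {H : Type*} [AddCommMonoid H] {S : Set H} {m : ℕ} (u : Fin m → H)
    (hu : ∀ l, u l ∈ sums m S) : ∑ l, u l ∈ sums (m * m) S := by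
  choose f hf1 hf2 using hu
  refine ⟨fun t => f (finProdFinEquiv.symm t).1 (finProdFinEquiv.symm t).2, fun t => hf1 _ _, ?_⟩
  rw [← Equiv.sum_comp finProdFinEquiv]
  simp only [Equiv.symm_apply_apply]
  rw [Fintype.sum_prod_type]
  exact Finset.sum_congr rfl fun l _ => hf2 l

lemma sums_bound {R : ℕ} {S : Set (Fin R → ℤ)} {T : ℕ} (hS : ∀ k ∈ S, ∀ i, 0 ≤ k i ∧ k i < T)
    (m : ℕ) (hm : 1 ≤ m) : ∀ k ∈ sums m S, ∀ i, 0 ≤ k i ∧ k i < ((m * T : ℕ) : ℤ) := by
  rintro _ ⟨f, hf, rfl⟩ i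
  rw [Finset.sum_apply]
  constructor
  · exact Finset.sum_nonneg fun l _ => (hS _ (hf l) i).1
  · have h1 : ∑ l : Fin m, f l i ≤ ∑ _l : Fin m, ((T : ℤ) - 1) :=
      Finset.sum_le_sum fun l _ => by have := (hS _ (hf l) i).2; omega
    rw [Finset.sum_const, Finset.card_univ, Fintype.card_fin, nsmul_eq_mul] at h1
    push_cast
    have h2 : (1 : ℤ) ≤ m := by exact_mod_cast hm
    nlinarith

/-- the first lower bound -/
lemma ncard_le_sums {G : Type} [AddCommGroup G] {R : ℕ} (V : (Fin R → ℤ) →+ G)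
    {S : Set (Fin R → ℤ)} (hS : S.Finite) {m : ℕ} (hm : 1 ≤ m) :
    (V '' S).ncard ≤ (V '' (sums m S)).ncard := by
  rcases S.eq_empty_or_nonempty with h | ⟨s₀, hs₀⟩
  · simp [h]
  have hinj : Function.Injective (fun y : G => y + (m - 1) • V s₀) := add_left_injective _
  rw [← Set.ncard_image_of_injective (V '' S) hinj]
  refine Set.ncard_le_ncard ?_ ((sums_finite hS m).image _)
  rintro _ ⟨_, ⟨k, hk, rfl⟩, rfl⟩
  obtain ⟨n, rfl⟩ : ∃ n, m = n + 1 := ⟨m - 1, by omega⟩
  refine ⟨k + n • s₀, ⟨Fin.cons k (fun _ => s₀), ?_, ?_⟩, ?_⟩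
  · intro i
    refine Fin.cases ?_ ?_ i
    · exact hk
    · intro j
      exact hs₀
  · rw [Fin.sum_univ_succ]
    simp
  · show V (k + n • s₀) = V k + (n + 1 - 1) • V s₀
    rw [map_add, map_nsmul, Nat.add_sub_cancel]

lemma sums_image {G : Type} [AddCommGroup G] {R : ℕ} (V : (Fin R → ℤ) →+ G)
    {S : Set (Fin R → ℤ)} {m j : ℕ} {x : Fin R → ℤ} :
    sums m (V '' (sums m S ∩ fib j x)) ⊆ V '' (sums (m * m) S ∩ fib j ((m : ℤ) • x)) := by
  rintro _ ⟨f, hf, rfl⟩
  choose u hu1 hu2 using hf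
  refine ⟨∑ l, u l, ⟨sums_mem_mul u fun l => (hu1 l).1, fun i hi => ?_⟩, ?_⟩
  · rw [Finset.sum_apply, Finset.sum_congr rfl fun l _ => (hu1 l).2 i hi]
    simp
  · rw [map_sum]
    exact Finset.sum_congr rfl fun l _ => hu2 l

theorem t : S_CHAIN := by
  intro G _ R q a T V S b hS hT hTa ha hq hb hVS hR
  classical
  have hb0 : 0 < b := by linarith
  have hSfin : S.Finite := by
    refine (Set.finite_Icc (0 : Fin R → ℤ) (fun _ => (T : ℤ))).subset ?_
    intro k hk
    exact ⟨fun i => (hS k hk i).1, fun i => (hS k hk i).2.le⟩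
  set A : ℕ → ℕ := fun i => a * 2 ^ i with hA
  have hA0 : ∀ i, a ≤ A i := fun i => Nat.le_mul_of_pos_right _ (by positivity)
  have hAs : ∀ i, A (i + 1) = 2 * A i := fun i => by simp only [hA, pow_succ]; ring
  set F : ℕ → ℕ → ℕ := fun i j => Fm V (sums (2 ^ A i) S) j with hF
  have hfin : ∀ i, (sums (2 ^ A i) S).Finite := fun i => sums_finite hSfin _
  have hex : ∀ i, ∃ j, (F i j : ℝ) ≤ b ^ A i := fun i =>
    ⟨R, le_trans (by exact_mod_cast Fm_top V (hfin i)) (one_le_pow₀ hb)⟩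
  set J : ℕ → ℕ := fun i => Nat.find (hex i) with hJ
  have hJ1 : ∀ i, (F i (J i) : ℝ) ≤ b ^ A i := fun i => Nat.find_spec (hex i)
  have hJ2 : ∀ i j, j < J i → b ^ A i < (F i j : ℝ) := fun i j h => not_le.1 (Nat.find_min (hex i) h)
  have hJR : ∀ i, J i ≤ R := fun i => Nat.find_min' (hex i)
    (le_trans (by exact_mod_cast Fm_top V (hfin i)) (one_le_pow₀ hb))
  have hF0 : ∀ i, b ^ 740 ≤ (F i 0 : ℝ) := fun i => by
    refine hVS.trans ?_
    exact_mod_cast (ncard_le_sums V hSfin Nat.one_le_two_pow).trans (Fm_zero V (hfin i))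
  by_cases hcase : ∃ i, i < q ∧ b ^ 740 ≤ (F i (J (i + 1)) : ℝ)
  · obtain ⟨i, hi, hbi⟩ := hcase
    obtain ⟨x, hx⟩ := exists_Fm V (hfin i) (J (i + 1))
    refine ⟨A i, V '' (sums (2 ^ A i) S ∩ fib (J (i + 1)) x), ?_, ?_, ?_, ?_, ?_, ?_⟩
    · have := hA0 i
      omega
    · exact Nat.mul_le_mul_left _ (Nat.pow_le_pow_right (by norm_num) hi.le)
    · exact ((hfin i).inter_of_left _).image _
    · exact Set.image_mono Set.inter_subset_left
    · rw [hx]
      exact hbi
    · have h1 := Set.ncard_le_ncard (sums_image V (S := S) (m := 2 ^ A i) (j := J (i + 1)) (x := x))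
        (((sums_finite hSfin _).inter_of_left _).image _)
      have h2 : 2 ^ A i * 2 ^ A i = 2 ^ A (i + 1) := by
        rw [hAs, ← pow_add]
        congr 1
        ring
      rw [h2] at h1
      have h3 := h1.trans (le_Fm V (hfin (i + 1)) _ _)
      have h4 := hJ1 (i + 1)
      rw [hAs] at h4
      exact le_trans (by exact_mod_cast h3) h4
  · exfalso
    push Not at hcase
    set D : ℝ := Real.log b / (4 * Real.log 2) - 1 with hD
    have hpos : ∀ i, i < q → 1 ≤ J (i + 1) := by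
      intro i hi
      by_contra h0
      have h1 : J (i + 1) = 0 := by omega
      have h2 := hcase i hi
      rw [h1] at h2
      exact absurd (hF0 i) (not_le.2 h2)
    have hstep : ∀ i, 1 ≤ i → i < q → (J i : ℝ) + D ≤ J (i + 1) := by
      intro i h1 hi
      obtain ⟨i', rfl⟩ : ∃ i', i = i' + 1 := ⟨i - 1, by omega⟩
      set i := i' + 1
      have hJi : 1 ≤ J i := hpos i' (by omega)
      have h2 : b ^ A i < (F i (J i - 1) : ℝ) := hJ2 i _ (by omega)
      have h3 : (F i (J (i + 1)) : ℝ) < b ^ 740 := hcase i hi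
      have hAi : 1480 ≤ A i := ha.trans (hA0 i)
      have h4 : b ^ 740 ≤ b ^ A i := pow_le_pow_right₀ hb (by omega)
      have h5 : J i - 1 < J (i + 1) := by
        by_contra hcon
        have h6 := Fm_anti V (hfin i) (show J (i + 1) ≤ J i - 1 by omega)
        have h7 : (F i (J i - 1) : ℝ) ≤ F i (J (i + 1)) := by exact_mod_cast h6
        linarith
      obtain ⟨d, hd⟩ : ∃ d, J (i + 1) = (J i - 1) + d := ⟨J (i + 1) - (J i - 1), by omega⟩
      have h8 := Fm_le_pow V (hfin i) (2 ^ A i * T) (sums_bound hS _ Nat.one_le_two_pow)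
        (J i - 1) d (by rw [← hd]; exact hJR _)
      rw [← hd] at h8
      have h9 : 2 ^ A i * T ≤ 2 ^ (2 * A i) := by
        calc 2 ^ A i * T ≤ 2 ^ A i * 2 ^ A i :=
              Nat.mul_le_mul_left _ (hTa.trans (Nat.pow_le_pow_right (by norm_num) (hA0 i)))
          _ = 2 ^ (2 * A i) := by rw [← pow_add]; congr 1; ring
      have h10 : (F i (J i - 1) : ℝ) ≤ (2 : ℝ) ^ (2 * A i * d) * F i (J (i + 1)) := by
        have : F i (J i - 1) ≤ 2 ^ (2 * A i * d) * F i (J (i + 1)) := by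
          refine h8.trans (Nat.mul_le_mul_right _ ?_)
          rw [pow_mul 2 (2 * A i) d]
          exact Nat.pow_le_pow_left h9 d
        exact_mod_cast this
      have h11 : b ^ A i < (2 : ℝ) ^ (2 * A i * d) * b ^ 740 := by
        refine h2.trans_le (h10.trans ?_)
        exact mul_le_mul_of_nonneg_left h3.le (by positivity)
      have h12 := Real.log_lt_log (by positivity) h11
      rw [Real.log_mul (by positivity) (by positivity), Real.log_pow, Real.log_pow, Real.log_pow] at h12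
      have hlb : 0 ≤ Real.log b := Real.log_nonneg hb
      have hl2 : 0 < Real.log 2 := Real.log_pos (by norm_num)
      have hAiR : (1480 : ℝ) ≤ (A i : ℝ) := by exact_mod_cast hAi
      have h13 : (A i : ℝ) / 2 * Real.log b < 2 * A i * d * Real.log 2 := by
        push_cast at h12
        nlinarith
      have h14 : Real.log b < 4 * d * Real.log 2 := by
        by_contra hcon
        push Not at hcon
        nlinarith
      have h15 : D < (d : ℝ) - 1 := by
        rw [hD]
        have : Real.log b / (4 * Real.log 2) < d := by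
          rw [div_lt_iff₀ (by positivity)]
          linarith
        linarith
      have h16 : (J (i + 1) : ℝ) = (J i : ℝ) - 1 + d := by
        have : J (i + 1) + 1 = J i + d := by omega
        have h17 : ((J (i + 1) + 1 : ℕ) : ℝ) = ((J i + d : ℕ) : ℝ) := by rw [this]
        push_cast at h17
        linarith
      rw [h16]
      linarith
    have hind : ∀ i, i < q → (1 : ℝ) + i * D ≤ J (i + 1) := by
      intro i
      induction i with
      | zero =>
        intro hi
        have := hpos 0 hi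
        push_cast
        have h : (1 : ℝ) ≤ J (0 + 1) := by exact_mod_cast this
        linarith
      | succ i ih =>
        intro hi
        have h1 := ih (by omega)
        have h2 := hstep (i + 1) (by omega) hi
        push_cast
        linarith
    have h1 := hind (q - 1) (by omega)
    have h2 : ((q - 1 : ℕ) : ℝ) = (q : ℝ) - 1 := by
      rw [Nat.cast_sub hq]
      simp
    rw [h2] at h1
    have h3 : (J (q - 1 + 1) : ℝ) ≤ R := by exact_mod_cast hJR _
    linarith

end Run7.h814.PFN.CHAIN
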