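import Pool.Agent.Run7.h814.PFN.Iface
import Pool.Agent.R934.LB.Pack

set_option autoImplicit false
open scoped Pointwise
open Module

namespace Run7.h814.PFN

/-- lattice points of a ball -/
def bl {n : ℕ} (L : AddSubgroup (E n)) (i : ℕ) : Set (E n) :=
  {x | x ∈ L ∧ ‖x‖ ≤ (2 : ℝ) ^ i}

lemma card_fin {n : ℕ} (L : AddSubgroup (E n)) (hsep : ∀ x ∈ L, x ≠ 0 → 1 ≤ ‖x‖) (r : ℝ)
    (hr : 0 ≤ r) (F : Finset (E n)) (hF : ∀ x ∈ F, x ∈ L ∧ ‖x‖ ≤ r) :
    (F.card : ℝ) ≤ (2 * r + 1) ^ n := by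
  have := Pool.Agent.R934.LB.card_le_sep F r hr (fun x hx => (hF x hx).2) (by
    intro x hx y hy hxy
    exact hsep _ (L.sub_mem (hF x hx).1 (hF y hy).1) (sub_ne_zero.2 hxy))
  rwa [finrank_euclideanSpace_fin] at this

lemma bl_finite {n : ℕ} (L : AddSubgroup (E n)) (hsep : ∀ x ∈ L, x ≠ 0 → 1 ≤ ‖x‖) (i : ℕ) :
    (bl L i).Finite := by
  by_contra hinf
  obtain ⟨k, hk⟩ := exists_nat_gt ((2 * (2 : ℝ) ^ i + 1) ^ n)
  obtain ⟨F, hF, hFc⟩ := Set.Infinite.exists_subset_card_eq hinf k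
  have := card_fin L hsep ((2 : ℝ) ^ i) (by positivity) F (fun x hx => hF hx)
  rw [hFc] at this
  linarith

lemma bl_card_le {n : ℕ} (L : AddSubgroup (E n)) (hsep : ∀ x ∈ L, x ≠ 0 → 1 ≤ ‖x‖) (i : ℕ) :
    ((bl L i).ncard : ℝ) ≤ (2 * (2 : ℝ) ^ i + 1) ^ n := by
  rw [Set.ncard_eq_toFinset_card _ (bl_finite L hsep i)]
  refine card_fin L hsep _ (by positivity) _ ?_
  intro x hx
  rw [Set.Finite.mem_toFinset] at hx
  exact hx

lemma bl_mono {n : ℕ} (L : AddSubgroup (E n)) {i j : ℕ} (h : i ≤ j) : bl L i ⊆ bl L j := by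
  intro x hx
  exact ⟨hx.1, hx.2.trans (pow_le_pow_right₀ (by norm_num) h)⟩

lemma bl_zero {n : ℕ} (L : AddSubgroup (E n)) (i : ℕ) : (0 : E n) ∈ bl L i := by
  refine ⟨L.zero_mem, ?_⟩
  rw [norm_zero]
  positivity

lemma bl_add {n : ℕ} (L : AddSubgroup (E n)) (i : ℕ) : bl L i + bl L i ⊆ bl L (i + 1) := by
  rintro _ ⟨x, hx, y, hy, rfl⟩
  refine ⟨L.add_mem hx.1 hy.1, (norm_add_le x y).trans ?_⟩
  rw [pow_succ]
  linarith [hx.2, hy.2]

/-- a scale with small doubling -/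
lemma scale (f : ℕ → ℝ) (g : ℝ) (hg : 0 ≤ g) (a₀ β : ℕ)
    (h : f (a₀ + β) ≤ g ^ β * f a₀) (hβ : 1 ≤ β) :
    ∃ i, a₀ ≤ i ∧ i < a₀ + β ∧ f (i + 1) ≤ g * f i := by
  by_contra hcon
  push Not at hcon
  have key : ∀ j, j ≤ β → g ^ j * f a₀ ≤ f (a₀ + j) ∧ (1 ≤ j → g ^ j * f a₀ < f (a₀ + j)) := by
    intro j
    induction j with
    | zero => intro _; simp
    | succ j ih =>
      intro hj
      have h1 := (ih (by omega)).1
      have h2 := hcon (a₀ + j) (by omega) (by omega)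
      have h3 : g ^ (j + 1) * f a₀ < f (a₀ + (j + 1)) := by
        calc g ^ (j + 1) * f a₀ = g * (g ^ j * f a₀) := by ring
          _ ≤ g * f (a₀ + j) := mul_le_mul_of_nonneg_left h1 hg
          _ < f (a₀ + j + 1) := h2
          _ = f (a₀ + (j + 1)) := by rw [add_assoc]
      exact ⟨h3.le, fun _ => h3⟩
  have := (key β le_rfl).2 hβ
  linarith

lemma norm_diff {n : ℕ} (L : AddSubgroup (E n)) (i : ℕ) {x y : E n} (hx : x ∈ bl L i)
    (hy : y ∈ bl L i) : x - y ∈ L ∧ ‖x - y‖ ≤ (2 : ℝ) ^ (i + 1) := by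
  refine ⟨L.sub_mem hx.1 hy.1, (norm_sub_le x y).trans ?_⟩
  rw [pow_succ]
  linarith [hx.2, hy.2]

/-- differences of sums of images -/
lemma sums_diff {n R : ℕ} (L : AddSubgroup (E n)) (i m : ℕ) (V : (Fin R → ℤ) →+ E n)
    (S : Set (Fin R → ℤ)) (a : E n) (hS : ∀ k ∈ S, a + V k ∈ bl L i) {x y : E n}
    (hx : x ∈ V '' sums m S) (hy : y ∈ V '' sums m S) :
    x - y ∈ L ∧ ‖x - y‖ ≤ (m : ℝ) * (2 : ℝ) ^ (i + 1) := by
  obtain ⟨_, ⟨f, hf, rfl⟩, rfl⟩ := hx
  obtain ⟨_, ⟨g, hg, rfl⟩, rfl⟩ := hy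
  have h : V (∑ j, f j) - V (∑ j, g j) = ∑ j, ((a + V (f j)) - (a + V (g j))) := by
    rw [map_sum, map_sum, ← Finset.sum_sub_distrib]
    refine Finset.sum_congr rfl fun j _ => ?_
    abel
  rw [h]
  constructor
  · exact L.sum_mem fun j _ => (norm_diff L i (hS _ (hf j)) (hS _ (hg j))).1
  · refine (norm_sum_le _ _).trans ?_
    refine (Finset.sum_le_sum fun j _ => (norm_diff L i (hS _ (hf j)) (hS _ (hg j))).2).trans ?_
    rw [Finset.sum_const, Finset.card_univ, Fintype.card_fin, nsmul_eq_mul]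

lemma torsion_free {n : ℕ} (k : ℕ) (x : E n) (hk : k ≠ 0) (h : k • x = 0) : x = 0 := by
  rw [← Nat.cast_smul_eq_nsmul ℝ k x] at h
  rcases smul_eq_zero.1 h with h | h
  · exact absurd (by exact_mod_cast h) hk
  · exact h

/-- rank of the differences of a set in a coset of a finitely generated group -/
lemma rank_coset {n : ℕ} (S : Finset (E n)) (t : E n) (Y : Set (E n))
    (hY : ∀ y ∈ Y, y - t ∈ AddSubgroup.closure (S : Set (E n))) :
    finrank ℝ (Submodule.span ℝ (Y - Y)) ≤ S.card := by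
  have h1 : Submodule.span ℝ (Y - Y) ≤ Submodule.span ℝ (S : Set (E n)) := by
    rw [Submodule.span_le]
    rintro _ ⟨x, hx, y, hy, rfl⟩
    have hle : AddSubgroup.closure (S : Set (E n)) ≤
        (Submodule.span ℝ (S : Set (E n))).toAddSubgroup := by
      rw [AddSubgroup.closure_le]
      exact Submodule.subset_span
    have h2 : (x - t) - (y - t) ∈ AddSubgroup.closure (S : Set (E n)) :=
      AddSubgroup.sub_mem _ (hY x hx) (hY y hy)
    have h3 := hle h2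
    have h4 : (x - t) - (y - t) = x - y := by abel
    rw [h4] at h3
    exact h3
  exact (Submodule.finrank_mono h1).trans (finrank_span_finset_le_card S)

/-- pigeonhole -/
lemma pigeon {n : ℕ} (X : Set (E n)) (hX : X.Finite) (T : Finset (E n))
    (p : E n → E n → Prop) (h : ∀ x ∈ X, ∃ t ∈ T, p x t) (hne : X.Nonempty) :
    ∃ t ∈ T, X.ncard ≤ T.card * {x ∈ X | p x t}.ncard := by
  classical
  obtain ⟨F, rfl⟩ := hX.exists_finset_coe
  choose! g hg using h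
  have hne' : F.Nonempty := by simpa using hne
  obtain ⟨x₀, hx₀⟩ := hne'
  have hTne : T.Nonempty := ⟨g x₀, (hg x₀ hx₀).1⟩
  by_contra hcon
  push Not at hcon
  have h1 : F.card = ∑ t ∈ T, (F.filter fun x => g x = t).card :=
    Finset.card_eq_sum_card_fiberwise fun x hx => (hg x hx).1
  have h2 : ∀ t ∈ T, T.card * (F.filter fun x => g x = t).card < F.card := by
    intro t ht
    have h3 := hcon t ht
    rw [Set.ncard_coe_finset] at h3
    refine lt_of_le_of_lt (Nat.mul_le_mul_left _ ?_) h3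
    rw [← Set.ncard_coe_finset]
    refine Set.ncard_le_ncard ?_ ((Finset.finite_toSet F).subset (Set.sep_subset _ _))
    intro x hx
    rw [Finset.mem_coe, Finset.mem_filter] at hx
    exact ⟨hx.1, hx.2 ▸ (hg x hx.1).2⟩
  have h4 : T.card * F.card < T.card * F.card := by
    calc T.card * F.card = ∑ t ∈ T, T.card * (F.filter fun x => g x = t).card := by
          rw [h1, Finset.mul_sum]
      _ < ∑ t ∈ T, F.card := Finset.sum_lt_sum_of_nonempty hTne h2
      _ = T.card * F.card := by rw [Finset.sum_const, smul_eq_mul]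
  exact lt_irrefl _ h4

end Run7.h814.PFN
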