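import Pool.Agent.Run7.h814.PFN.Fin1
import Pool.Agent.Results.MP_86f7a7_co.RankReduction

set_option autoImplicit false
open scoped Pointwise
open Module
open Pool.Agent.Results.MP_86f7a7_co.RankReduction (prog Reduces Q1 euclid)

namespace Run7.h814.PFN

/-- the endgame: parameters in place -/
lemma endgame (hG : S_GROW) (hC : S_CHAIN) (n : ℕ) (hn : 16000 ≤ n) (L : AddSubgroup (E n))
    (T₀ a q i b₀ : ℕ) (hT₀ : 1 ≤ T₀) (hTa : T₀ ≤ 2 ^ a) (ha : 1480 ≤ a) (hib : i ≤ b₀)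
    (hsep : ∀ x ∈ L, x ≠ 0 → 1 ≤ ‖x‖)
    (hsec : ∀ Y : Set (E n), Y.Finite →
      (∀ x ∈ Y, ∀ y ∈ Y, x - y ∈ L ∧ ‖x - y‖ ≤ (2 : ℝ) ^ (a * 2 ^ q + 1 + b₀)) →
      2 * Module.finrank ℝ (Submodule.span ℝ (Y - Y)) ≤ n →
      (Y.ncard : ℝ) ≤ (2 : ℝ) ^ ((n : ℝ) / 10))
    (R : ℕ) (hq : 1 ≤ q) (hR : (R : ℝ) ≤ ((q : ℝ) - 1) * ((n : ℝ) / 16000)) (c : E n)
    (v : Fin R → E n) (N : Fin R → ℕ) (hN : ∀ j, N j ≤ T₀)
    (hbig : (4 : ℝ) ^ n ≤ ((bl L i ∩ prog c v N).ncard : ℝ)) : False := by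
  classical
  have hn0 : (0 : ℝ) < n := by
    have : 0 < n := by omega
    exact_mod_cast this
  have hn' : (16000 : ℝ) ≤ n := by exact_mod_cast hn
  -- the homomorphism
  let V : (Fin R → ℤ) →+ E n :=
    { toFun := fun k => ∑ j, k j • v j
      map_zero' := by simp
      map_add' := fun x y => by simp [add_smul, Finset.sum_add_distrib] }
  have hV : ∀ k : Fin R → ℤ, V k = ∑ j, k j • v j := fun k => rfl
  let S : Set (Fin R → ℤ) := {k | (∀ j, 0 ≤ k j ∧ k j < N j) ∧ c + V k ∈ bl L i}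
  have hSbox : ∀ k ∈ S, ∀ j, 0 ≤ k j ∧ k j < T₀ := by
    intro k hk j
    exact ⟨(hk.1 j).1, lt_of_lt_of_le (hk.1 j).2 (by exact_mod_cast hN j)⟩
  have hSbl : ∀ k ∈ S, c + V k ∈ bl L i := fun k hk => hk.2
  -- cardinality of V '' S
  have hSfin : S.Finite := by
    refine Set.Finite.subset (Set.Finite.pi' fun j => Set.finite_Ico (0 : ℤ) T₀) ?_
    intro k hk j
    exact ⟨(hSbox k hk j).1, (hSbox k hk j).2⟩
  have hcard : ((bl L i ∩ prog c v N).ncard : ℝ) ≤ ((V '' S).ncard : ℝ) := by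
    have hsub : bl L i ∩ prog c v N ⊆ (fun x => c + x) '' (V '' S) := by
      rintro x ⟨hx, k, hk, rfl⟩
      refine ⟨V (fun j => (k j : ℤ)), ⟨fun j => (k j : ℤ), ⟨?_, ?_⟩, rfl⟩, ?_⟩
      · intro j
        exact ⟨Int.natCast_nonneg _, Int.ofNat_lt.2 (hk j)⟩
      · have h1 : V (fun j => (k j : ℤ)) = ∑ j, k j • v j := by
          rw [hV]
          exact Finset.sum_congr rfl fun j _ => natCast_zsmul _ _
        rw [h1]
        exact hx
      · show c + V (fun j => (k j : ℤ)) = _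
        have h1 : V (fun j => (k j : ℤ)) = ∑ j, k j • v j := by
          rw [hV]
          exact Finset.sum_congr rfl fun j _ => natCast_zsmul _ _
        rw [h1]
    have h1 := Set.ncard_le_ncard hsub ((hSfin.image V).image _)
    have h2 := Set.ncard_image_le (f := fun x => c + x) (hSfin.image V)
    exact_mod_cast h1.trans h2
  set b : ℝ := (2 : ℝ) ^ ((n : ℝ) / 2000) with hb
  have hb1 : 1 ≤ b := Real.one_le_rpow (by norm_num) (by positivity)
  have hb0 : 0 < b := by linarith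
  have hbpow : ∀ k : ℕ, b ^ k = (2 : ℝ) ^ ((k : ℝ) * n / 2000) := by
    intro k
    rw [hb, ← Real.rpow_natCast, ← Real.rpow_mul (by norm_num)]
    congr 1
    ring
  have hlogb : Real.log b = (n : ℝ) / 2000 * Real.log 2 := by
    rw [hb, Real.log_rpow (by norm_num)]
  have hlog2 : 0 < Real.log 2 := Real.log_pos (by norm_num)
  have hlog2' : Real.log 2 < 0.6931471808 := Real.log_two_lt_d9
  have hbV : b ^ 740 ≤ ((V '' S).ncard : ℝ) := by
    refine le_trans ?_ (hbig.trans hcard)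
    rw [hbpow]
    have h4 : (4 : ℝ) ^ n = (2 : ℝ) ^ ((2 : ℝ) * n) := by
      rw [Real.rpow_mul (by norm_num), Real.rpow_natCast]
      norm_num
    rw [h4]
    refine Real.rpow_le_rpow_of_exponent_le (by norm_num) ?_
    push_cast
    linarith
  have hRb : (R : ℝ) ≤ ((q : ℝ) - 1) * (Real.log b / (4 * Real.log 2) - 1) := by
    refine hR.trans ?_
    have hq' : (0 : ℝ) ≤ (q : ℝ) - 1 := by
      have : (1 : ℝ) ≤ q := by exact_mod_cast hq
      linarith
    refine mul_le_mul_of_nonneg_left ?_ hq'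
    rw [hlogb]
    have : (n : ℝ) / 2000 * Real.log 2 / (4 * Real.log 2) = n / 8000 := by
      field_simp
      norm_num
    rw [this]
    linarith
  obtain ⟨s, X, hs1, hs2, hXf, hXsub, hXc, hXs⟩ :=
    hC (E n) R q a T₀ V S b hSbox hT₀ hTa ha hq hb1 hbV hRb
  have hXne : X.Nonempty := by
    rw [← Set.ncard_pos hXf]
    have h1 : (1 : ℝ) ≤ b ^ 740 := one_le_pow₀ hb1
    have h2 : (1 : ℝ) ≤ X.ncard := h1.trans hXc
    have : 1 ≤ X.ncard := by exact_mod_cast h2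
    omega
  obtain ⟨S', T', hS', hT', hcov⟩ := hG (E n) (fun k x hk h => torsion_free k x hk h) X s (b ^ 2)
    hXf hXne (one_le_pow₀ hb1) (by
      rw [← pow_mul]
      exact hXs)
  obtain ⟨t, ht, hpig⟩ := pigeon X hXf T'
    (fun x t => x - t ∈ AddSubgroup.closure (S' : Set (E n))) hcov hXne
  set Y : Set (E n) := {x ∈ X | x - t ∈ AddSubgroup.closure (S' : Set (E n))} with hY
  have hYf : Y.Finite := hXf.subset (Set.sep_subset _ _)
  have hYX : Y ⊆ X := Set.sep_subset _ _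
  -- differences
  have hdiff : ∀ x ∈ Y, ∀ y ∈ Y, x - y ∈ L ∧ ‖x - y‖ ≤ (2 : ℝ) ^ (a * 2 ^ q + 1 + b₀) := by
    intro x hx y hy
    obtain ⟨h1, h2⟩ := sums_diff L i (2 ^ s) V S c hSbl (hXsub (hYX hx)) (hXsub (hYX hy))
    refine ⟨h1, h2.trans ?_⟩
    push_cast
    rw [← pow_add]
    exact pow_le_pow_right₀ (by norm_num) (by omega)
  -- rank
  have hrank : 2 * finrank ℝ (Submodule.span ℝ (Y - Y)) ≤ n := by
    have h1 := rank_coset S' t Y (fun y hy => hy.2)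
    have h2 : (S'.card : ℝ) ≤ 480 * Real.log (b ^ 2) + 1 := hS'
    rw [Real.log_pow, hlogb] at h2
    push_cast at h2
    have h3 : (2 * (S'.card : ℝ)) ≤ n := by nlinarith
    have h4 : 2 * S'.card ≤ n := by exact_mod_cast h3
    omega
  have hfin := hsec Y hYf hdiff hrank
  -- contradiction
  have h1 : b ^ 740 ≤ b ^ 370 * (2 : ℝ) ^ ((n : ℝ) / 10) := by
    have h2 : (X.ncard : ℝ) ≤ (T'.card : ℝ) * (Y.ncard : ℝ) := by exact_mod_cast hpig
    have h3 : (T'.card : ℝ) ≤ b ^ 370 := by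
      refine hT'.trans (le_of_eq ?_)
      rw [← pow_mul]
    calc b ^ 740 ≤ X.ncard := hXc
      _ ≤ (T'.card : ℝ) * (Y.ncard : ℝ) := h2
      _ ≤ b ^ 370 * (2 : ℝ) ^ ((n : ℝ) / 10) :=
        mul_le_mul h3 hfin (Nat.cast_nonneg _) (by positivity)
  rw [hbpow, hbpow, ← Real.rpow_add (by norm_num), Real.rpow_le_rpow_left_iff (by norm_num)] at h1
  push_cast at h1
  linarith

end Run7.h814.PFN
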