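import Pool.Agent.Run7.h814.PFN.Fin2

set_option autoImplicit false
open scoped Pointwise
open Module
open Pool.Agent.Results.MP_86f7a7_co.RankReduction (prog Reduces Q1 euclid)

namespace Run7.h814.PFN

theorem final (hG : S_GROW) (hC : S_CHAIN) (hS : S_SEC) (hL : S_LAT) : ¬ Q1 := by
  classical
  rintro ⟨C, hC0, c, hc0, H⟩
  obtain ⟨e, he⟩ : ∃ e : ℕ, C ≤ (2 : ℝ) ^ e := by
    obtain ⟨e, he⟩ := pow_unbounded_of_one_lt C (one_lt_two (α := ℝ))
    exact ⟨e, he.le⟩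
  set c' : ℝ := c + e with hc'
  have hc'0 : 0 ≤ c' := by positivity
  obtain ⟨c₁, hc₁, HL⟩ := hL
  obtain ⟨a₀, ha₀⟩ : ∃ a₀ : ℕ, (4 : ℝ) ^ (3 * c' + 2) / c₁ ≤ (2 : ℝ) ^ a₀ := by
    obtain ⟨a₀, h⟩ := pow_unbounded_of_one_lt ((4 : ℝ) ^ (3 * c' + 2) / c₁) (one_lt_two (α := ℝ))
    exact ⟨a₀, h.le⟩
  obtain ⟨β₀, hβ₀⟩ : ∃ β : ℕ, 4 / c₁ ≤ (2 : ℝ) ^ β := by
    obtain ⟨β, h⟩ := pow_unbounded_of_one_lt (4 / c₁) (one_lt_two (α := ℝ))
    exact ⟨β, h.le⟩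
  set β := β₀ + 1 with hβdef
  have hβ : 4 / c₁ ≤ (2 : ℝ) ^ β := hβ₀.trans (pow_le_pow_right₀ (by norm_num) (by omega))
  set b₀ := a₀ + β with hb₀
  have hlog4 : 0 < Real.log 4 := Real.log_pos (by norm_num)
  obtain ⟨T, hT0, hT⟩ := euclid c' (Real.log 4) ((2 : ℝ) ^ b₀) hc'0 hlog4 (by positivity)
  set T₀ : ℕ := ⌈T⌉₊ + 1 with hT₀
  have hTT₀ : T ≤ T₀ := by
    rw [hT₀]
    push_cast
    linarith [Nat.le_ceil T]
  set a : ℕ := max 1480 T₀ with ha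
  obtain ⟨q, hq⟩ := exists_nat_ge (16000 * (T * Real.log 4) + 1)
  have hq1 : 1 ≤ q := by
    have : 0 ≤ 16000 * (T * Real.log 4) := by positivity
    have h2 : (1 : ℝ) ≤ q := by linarith
    exact_mod_cast h2
  obtain ⟨ql, hql, n₁, Hn₁⟩ := HL ((2 : ℝ) ^ (a * 2 ^ q + 1 + b₀))
    (one_le_pow₀ (by norm_num))
  obtain ⟨n₂, Hn₂⟩ := hS ((2 : ℝ) ^ (a * 2 ^ q + 1 + b₀)) ql (one_le_pow₀ (by norm_num)) hql
  set n : ℕ := max (max n₁ n₂) 16000 with hn
  have hnn₁ : n₁ ≤ n := (le_max_left _ _).trans (le_max_left _ _)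
  have hnn₂ : n₂ ≤ n := (le_max_right _ _).trans (le_max_left _ _)
  have hn16 : 16000 ≤ n := le_max_right _ _
  have hn0 : (0 : ℝ) < n := by
    have : 0 < n := by omega
    exact_mod_cast this
  obtain ⟨L, hgood, hsize⟩ := Hn₁ n hnn₁
  -- the scale
  obtain ⟨i, hi1, hi2, hi3⟩ := scale (fun i => ((bl L i).ncard : ℝ)) ((4 : ℝ) ^ n) (by positivity)
    a₀ β (by
      show ((bl L (a₀ + β)).ncard : ℝ) ≤ ((4 : ℝ) ^ n) ^ β * ((bl L a₀).ncard : ℝ)
      have h1 := bl_card_le L hgood.sep (a₀ + β)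
      have h2 := hsize (2 ^ a₀) Nat.one_le_two_pow
      have h2' : (c₁ * (2 : ℝ) ^ a₀) ^ n ≤ ((bl L a₀).ncard : ℝ) := by
        have h3 : {x : E n | x ∈ L ∧ ‖x‖ ≤ ((2 ^ a₀ : ℕ) : ℝ)} = bl L a₀ := by
          ext x
          simp [bl]
        rw [h3] at h2
        push_cast at h2
        exact h2
      have h3 : (2 * (2 : ℝ) ^ (a₀ + β) + 1) ≤ (4 : ℝ) ^ β * (c₁ * (2 : ℝ) ^ a₀) := by
        have h4 : (1 : ℝ) ≤ 2 ^ (a₀ + β) := one_le_pow₀ (by norm_num)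
        have h5 : (4 : ℝ) ^ β = 2 ^ β * 2 ^ β := by
          rw [← mul_pow]; norm_num
        rw [div_le_iff₀ hc₁] at hβ
        calc (2 * (2 : ℝ) ^ (a₀ + β) + 1) ≤ 4 * 2 ^ (a₀ + β) := by linarith
          _ = 4 * (2 ^ a₀ * 2 ^ β) := by rw [pow_add]
          _ ≤ (2 ^ β * c₁) * (2 ^ a₀ * 2 ^ β) := mul_le_mul_of_nonneg_right hβ (by positivity)
          _ = (4 : ℝ) ^ β * (c₁ * (2 : ℝ) ^ a₀) := by rw [h5]; ring
      calc ((bl L (a₀ + β)).ncard : ℝ) ≤ (2 * (2 : ℝ) ^ (a₀ + β) + 1) ^ n := h1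
        _ ≤ ((4 : ℝ) ^ β * (c₁ * (2 : ℝ) ^ a₀)) ^ n := pow_le_pow_left₀ (by positivity) h3 n
        _ = ((4 : ℝ) ^ n) ^ β * (c₁ * (2 : ℝ) ^ a₀) ^ n := by
            rw [mul_pow, ← pow_mul, ← pow_mul, mul_comm β n]
        _ ≤ ((4 : ℝ) ^ n) ^ β * ((bl L a₀).ncard : ℝ) :=
            mul_le_mul_of_nonneg_left h2' (by positivity)) (by omega)
  set K : ℝ := (4 : ℝ) ^ n with hK
  have hK2 : 2 ≤ K := by
    calc (2 : ℝ) ≤ 4 ^ 1 := by norm_num
      _ ≤ 4 ^ n := pow_le_pow_right₀ (by norm_num) (by omega)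
  have hK0 : 0 < K := by linarith
  have hK1 : 1 ≤ K := by linarith
  have hAfin : (bl L i).Finite := bl_finite L hgood.sep i
  have hAne : (bl L i).Nonempty := ⟨0, bl_zero L i⟩
  have hdoub : ((bl L i + bl L i).ncard : ℝ) ≤ K * ((bl L i).ncard : ℝ) := by
    refine le_trans ?_ hi3
    exact_mod_cast Set.ncard_le_ncard (bl_add L i) (bl_finite L hgood.sep (i + 1))
  obtain ⟨d, a', v, N, P, hP, hd, hPcard, hPdense⟩ :=
    H (E n) (fun k x hk h => torsion_free k x hk h) (bl L i) K hAfin hAne hdoub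
  have hPprog : P = prog a' v N := hP
  subst hPprog
  have hCK : C ≤ K ^ (e : ℝ) := by
    rw [Real.rpow_natCast]
    exact he.trans (pow_le_pow_left₀ (by norm_num) hK2 e)
  have hA0 : (0 : ℝ) ≤ (bl L i).ncard := Nat.cast_nonneg _
  have h1 : ((prog a' v N).ncard : ℝ) ≤ K ^ c' * (bl L i).ncard := by
    refine hPcard.trans (mul_le_mul_of_nonneg_right ?_ hA0)
    rw [hc', Real.rpow_add hK0, mul_comm (K ^ c)]
    exact mul_le_mul_of_nonneg_right hCK (by positivity)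
  have h2 : K ^ (-c') * ((bl L i).ncard : ℝ) ≤ ((bl L i ∩ prog a' v N).ncard : ℝ) := by
    refine le_trans (mul_le_mul_of_nonneg_right ?_ hA0) hPdense
    rw [hc', neg_add, Real.rpow_add hK0, mul_comm (K ^ (-c))]
    refine mul_le_mul_of_nonneg_right ?_ (by positivity)
    rw [Real.rpow_neg hK0.le]
    exact inv_anti₀ hC0 hCK
  have hexpK : Real.exp (Real.log 4 * n) ≤ K := by
    rw [mul_comm, Real.exp_nat_mul, Real.exp_log (by norm_num)]
  obtain ⟨R, a'', σ, -, hR, hN', hsub, hdense⟩ :=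
    hT n K hK2 hexpK (bl L i) hAfin hAne
      ⟨0, fun x hx => by
        rw [dist_zero_right]
        exact hx.2.trans (pow_le_pow_right₀ (by norm_num) (by omega))⟩
      (fun x hx y hy hxy => by
        rw [dist_eq_norm]
        exact hgood.sep _ (L.sub_mem hx.1 hy.1) (sub_ne_zero.2 hxy))
      d a' v N h1 h2
  -- the size of the intersection
  have hbig : (4 : ℝ) ^ n ≤ ((bl L i ∩ prog a'' (v ∘ σ) (N ∘ σ)).ncard : ℝ) := by
    refine le_trans ?_ hdense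
    have h3 : K ^ (3 * c' + 2) ≤ ((bl L i).ncard : ℝ) := by
      have h4 := hsize (2 ^ a₀) Nat.one_le_two_pow
      have h4' : (c₁ * (2 : ℝ) ^ a₀) ^ n ≤ ((bl L a₀).ncard : ℝ) := by
        have h3 : {x : E n | x ∈ L ∧ ‖x‖ ≤ ((2 ^ a₀ : ℕ) : ℝ)} = bl L a₀ := by
          ext x
          simp [bl]
        rw [h3] at h4
        push_cast at h4
        exact h4
      have h5 : ((bl L a₀).ncard : ℝ) ≤ ((bl L i).ncard : ℝ) := by
        exact_mod_cast Set.ncard_le_ncard (bl_mono L hi1) hAfin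
      rw [div_le_iff₀ hc₁] at ha₀
      calc K ^ (3 * c' + 2) = ((4 : ℝ) ^ (3 * c' + 2)) ^ n := by
            rw [hK, ← Real.rpow_natCast, ← Real.rpow_natCast, ← Real.rpow_mul (by norm_num),
              ← Real.rpow_mul (by norm_num), mul_comm]
        _ ≤ (c₁ * (2 : ℝ) ^ a₀) ^ n := by
            refine pow_le_pow_left₀ (by positivity) ?_ n
            linarith
        _ ≤ ((bl L i).ncard : ℝ) := h4'.trans h5
    calc (4 : ℝ) ^ n = K ^ (-(3 * c' + 1)) * K ^ (3 * c' + 2) := by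
          rw [← Real.rpow_add hK0]
          have : -(3 * c' + 1) + (3 * c' + 2) = 1 := by ring
          rw [this, Real.rpow_one]
      _ ≤ K ^ (-(3 * c' + 1)) * ((bl L i).ncard : ℝ) :=
          mul_le_mul_of_nonneg_left h3 (by positivity)
  refine endgame hG hC n hn16 L T₀ a q i b₀ (by omega) ?_ (le_max_left _ _) (by omega) hgood.sep
    (Hn₂ n hnn₂ L hgood) R hq1 ?_ a'' (v ∘ σ) (N ∘ σ) ?_ hbig
  · exact (le_max_right 1480 T₀).trans (Nat.lt_two_pow_self (n := a)).le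
  · have h3 : Real.log K = n * Real.log 4 := by rw [hK, Real.log_pow]
    rw [h3] at hR
    calc (R : ℝ) ≤ T * (n * Real.log 4) := hR
      _ = (16000 * (T * Real.log 4)) * ((n : ℝ) / 16000) := by ring
      _ ≤ ((q : ℝ) - 1) * ((n : ℝ) / 16000) :=
          mul_le_mul_of_nonneg_right (by linarith) (by positivity)
  · intro j
    have h3 : ((N (σ j) : ℕ) : ℝ) ≤ T₀ := (hN' j).trans hTT₀
    exact_mod_cast h3

end Run7.h814.PFN
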