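import Mathlib

set_option autoImplicit false
open scoped Pointwise

/-!
# Interface of the project PFN: the negation S09898 of MP_86f7a7_co

(polynomial Freiman-Ruzsa with progressions of rank polynomial in `K` FAILS in torsion-free groups)

Every piece is a closed proposition `S_XXX` with its complete proof in the comment. A piece is
proved in the file `Pool/Agent/Run7/h814/PFN/<PIECE>.lean` as
`theorem Run7.h814.PFN.<PIECE>.t : S_<PIECE>` (or `S_A → S_B → S_<PIECE>` when the comment allows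
hypotheses).

## Overview of the proof
`A` = points of norm `≤ 2 ^ i` in a random lattice `L ⊂ ℝ ^ n` with minimum `≥ 1`; `K = 4 ^ n`.
By the starting file `RankReduction` a progression as in the question contains a progression with
`R ≤ T n` generators and sides `≤ T` (`T` constant) which still contains `≥ 4 ^ n` points of `A`.
CHAIN (pigeonhole over `q` scales and over the coordinates of the parameter box) gives
`s = O(1)` and a set `X`, `|X| ≥ b ^ 740`, `b = 2 ^ (n / 2000)`, of sums of `2 ^ s` points with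
`|2 ^ s X| ≤ b ^ (2 s)`. The weak Marton theorem (GROW) puts `2 ^ (0.18 n)` points of `X` in a coset
of a group of rank `≤ n / 2`. SEC: a random lattice has at most `2 ^ (n / 10)` points of norm `O(1)`
in a section of dimension `≤ n / 2`.
-/

namespace Run7.h814.PFN

/-- Euclidean space -/
abbrev E (n : ℕ) := EuclideanSpace ℝ (Fin n)

/-- the set of all sums of `m` elements of `Y` (`sums 0 Y = {0}`) -/
def sums {G : Type*} [AddCommMonoid G] (m : ℕ) (Y : Set G) : Set G :=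
  {x | ∃ f : Fin m → G, (∀ i, f i ∈ Y) ∧ x = ∑ i, f i}

/-- PIECE GROW. (60 lines) `sums 1 X = X`, `sums (2 m) X = sums m X + sums m X`.
If `s = 0` then `X` has one element, take `S = ∅`, `T = X`. If `s ≥ 1` there is `i < s` with
`|sums (2 ^ (i + 1)) X| ≤ B |sums (2 ^ i) X|` (otherwise `|sums (2 ^ s) X| > B ^ s |X| ≥ B ^ s`).
Apply the starting theorem `H137.Weak.weak_marton` (`Pool/Agent/H137R2/Weak/Final.lean`) to
`sums (2 ^ i) X`: its finite subgroup `P` is trivial and its `o` is `0` because `Γ` is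
torsion-free. Translate `T`: `x + (2 ^ i - 1) x₀ ∈ sums (2 ^ i) X` for `x, x₀ ∈ X`. -/
def S_GROW : Prop :=
  ∀ (Γ : Type) [AddCommGroup Γ], (∀ (k : ℕ) (x : Γ), k ≠ 0 → k • x = 0 → x = 0) →
    ∀ (X : Set Γ) (s : ℕ) (B : ℝ), X.Finite → X.Nonempty → 1 ≤ B →
      ((sums (2 ^ s) X).ncard : ℝ) ≤ B ^ s →
      ∃ S T : Finset Γ, (S.card : ℝ) ≤ 480 * Real.log B + 1 ∧ (T.card : ℝ) ≤ B ^ 185 ∧
        ∀ x ∈ X, ∃ t ∈ T, x - t ∈ AddSubgroup.closure (S : Set Γ)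

/-- PIECE CHAIN. (200 lines) Put `a_i = a 2 ^ i`, `m_i = 2 ^ a_i` for `i = 0, …, q`. For `j ≤ R`
and `x : Fin R → ℤ` let `fib j x = {k | ∀ i < j, k i = x i}` and let `F_i(j)` be the maximum over
`x` of `|V (sums m_i S ∩ fib j x)|` (only finitely many nonempty fibres; `S` is finite).
(a) `F_i(0) ≥ |V S| ≥ b ^ 740` (add a fixed element `(m_i - 1) s₀`, `V s₀` fixed).
(b) `F_i(R) ≤ 1`. (c) `F_i(j + 1) ≤ F_i(j) ≤ m_i T F_i(j + 1)` because the `j`-th coordinate of an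
element of `sums m_i S` is in `[0, m_i (T - 1)]`, and `m_i T ≤ 2 ^ (2 a_i)`.
(d) if `X = V (sums m_i S ∩ fib j x)` then `sums m_i X ⊆ V (sums m_(i+1) S ∩ fib j (m_i x))`, since
`m_i m_i = m_(i+1)`; so `|sums m_i X| ≤ F_(i+1)(j)`.
Let `j_i` be the least `j` with `F_i(j) ≤ b ^ a_i` (exists by (b)). If for some `i < q`
`F_i(j_(i+1)) ≥ b ^ 740`, take `s = a_i` and for `X` the image which attains the maximum: by (d)
`|sums (2 ^ s) X| ≤ b ^ a_(i+1) = b ^ (2 s)`. Suppose there is no such `i < q`. By (a)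
`j_(i+1) ≥ 1` for all `i < q`. For `1 ≤ i < q` we have `F_i(j_i - 1) > b ^ a_i ≥ b ^ 740 >
F_i(j_(i+1))`, so `j_(i+1) ≥ j_i`, and by (c)
`b ^ a_i < 2 ^ (2 a_i (j_(i+1) - j_i + 1)) b ^ 740 ≤ 2 ^ (2 a_i (j_(i+1) - j_i + 1)) b ^ (a_i / 2)`,
as `a_i ≥ 1480`; hence `j_(i+1) - j_i > log b / (4 log 2) - 1`. Summing over `i = 1, …, q - 1` and
using `j_1 ≥ 1`, `j_q ≤ R`: `R ≥ 1 + (q - 1) (log b / (4 log 2) - 1)`, a contradiction. -/
def S_CHAIN : Prop :=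
  ∀ (G : Type) [AddCommGroup G] (R q a T : ℕ) (V : (Fin R → ℤ) →+ G) (S : Set (Fin R → ℤ))
    (b : ℝ), (∀ k ∈ S, ∀ i, 0 ≤ k i ∧ k i < T) → 1 ≤ T → T ≤ 2 ^ a → 1480 ≤ a → 1 ≤ q → 1 ≤ b →
    b ^ 740 ≤ ((V '' S).ncard : ℝ) →
    (R : ℝ) ≤ ((q : ℝ) - 1) * (Real.log b / (4 * Real.log 2) - 1) →
    ∃ (s : ℕ) (X : Set G), 1 ≤ s ∧ s ≤ a * 2 ^ q ∧ X.Finite ∧ X ⊆ V '' (sums (2 ^ s) S) ∧
      b ^ 740 ≤ (X.ncard : ℝ) ∧ ((sums (2 ^ s) X).ncard : ℝ) ≤ b ^ (2 * s)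

/-- PIECE NAT (Natarajan's lemma). (80 lines) With `P = k ^ 2` let `N(d, l)` be the largest size of
a family without the conclusion. Induction on `d`: `F ⊆ (Fin (d + 1) → Fin k)`. Let `F₁` be the set
of restrictions to the first `d` coordinates (or `Fin.tail`), and for `a < b` let `F_ab` be the set
of `g` such that both extensions `(g, a)`, `(g, b)` are in `F`. As `r ≤ 1 + r (r - 1) / 2` for
`r ≥ 1` we have `|F| ≤ |F₁| + Σ_{a < b} |F_ab|`. If `F₁` has the conclusion for `l`, so does `F`;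
if some `F_ab` has the conclusion for `l - 1`, then `F` has it for `l` (add the new coordinate).
So if `F` doesn't: `|F| ≤ (1 + d P) ^ l + P (1 + d P) ^ (l - 1) ≤ (1 + (d + 1) P) ^ l` for
`l ≥ 1`. For `l = 0` the conclusion says only that `F` is nonempty. For `d = 0`, `|F| ≤ 1`. -/
def S_NAT : Prop :=
  ∀ (d k l : ℕ) (F : Finset (Fin d → Fin k)), (1 + d * k ^ 2) ^ l < F.card →
    ∃ (J : Fin l → Fin d) (a b : Fin l → Fin k), Function.Injective J ∧ (∀ i, a i ≠ b i) ∧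
      ∀ c : Fin l → Bool, ∃ f ∈ F, ∀ i, f (J i) = if c i then a i else b i

/-- PIECE HAD (Sylvester's Hadamard matrices). (40 lines) Induction on `h` with
`Matrix.kronecker` / `fromBlocks H H H (-H)` and a reindexing `Fin (2 ^ (h + 1)) ≃ Fin 2 × Fin (2 ^ h)`;
prove `H * Hᵀ = 2 ^ h • 1` along and take determinants. -/
def S_HAD : Prop :=
  ∀ h : ℕ, ∃ H : Matrix (Fin (2 ^ h)) (Fin (2 ^ h)) ℝ, (∀ i j, H i j = 1 ∨ H i j = -1) ∧
    H.det ^ 2 = ((2 : ℝ) ^ h) ^ (2 ^ h)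

/-- PIECE COSET (prove `S_NAT → S_HAD → S_COSET`). (150 lines) `U = span (Y - Y)`, `d = dim U`;
among the `d`-tuples of elements of the finite set `W = Y - Y` which are a basis of `U` (there is
one: a spanning set contains a basis) take `y` with the maximal `|det|` (with respect to a fixed
basis of `U`). Let `α_j` be the coordinates with respect to `y`. For `w₁, …, w_l ∈ W` and
`J : Fin l → Fin d` injective, `|det (α_(J i') (w_i))| ≤ 1`: replace `y_(J i)` by `w_i`, `i = 1..l`,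
the relative determinant is this minor. In particular `|α_j(w)| ≤ 1` for `w ∈ W`.
Let `Z ⊆ sums m Y` with differences in the group generated by the `y_j`, i.e. with integral
coordinates. Fix `z⁎ ∈ Z`. A difference `z - z'` of elements of `sums m Y` is a sum of `m`
elements of `W`, so `|α_j(z - z')| ≤ m` and `z ↦ (α_j(z) - α_j(z⁎) + m)_j` is an injection of `Z`
to `Fin d → Fin (2 m + 1)`. If `|Z| > (1 + d (2 m + 1) ^ 2) ^ (2 ^ h)`, S_NAT with `l = 2 ^ h`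
gives `J, a, b`. With the matrix `H` of S_HAD choose `z_i, z'_i ∈ Z` with coordinates `J i'` of
`z_i` equal to `a_(i')` if `H i i' = 1`, to `b_(i')` if `H i i' = -1`, and the opposite for `z'_i`.
Then `α_(J i')(z_i - z'_i) = H i i' (a_(i') - b_(i'))`, so the minor has
`|det| = |det H| ∏ |a - b| ≥ l ^ (l / 2)`. But `z_i - z'_i` is a sum of `m` elements of `W`, and
expanding the determinant by multilinearity in the rows `|det| ≤ m ^ l`. So `l ≤ m ^ 2`, a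
contradiction to `m ^ 2 < 2 ^ h = l`. (If `d = 0` then `Y` is one point, and `Z` too.) -/
def S_COSET : Prop :=
  ∀ (n : ℕ) (Y : Set (E n)), Y.Finite → Y.Nonempty →
    ∃ (d : ℕ) (y : Fin d → E n), d = Module.finrank ℝ (Submodule.span ℝ (Y - Y)) ∧
      LinearIndependent ℝ y ∧ (∀ j, y j ∈ Y - Y) ∧
      (∀ w ∈ Y - Y, w ∈ Submodule.span ℝ (Set.range y)) ∧
      ∀ m h : ℕ, 1 ≤ m → m ^ 2 < 2 ^ h → ∀ Z ⊆ sums m Y,
        (∀ z ∈ Z, ∀ z' ∈ Z, z - z' ∈ AddSubgroup.closure (Set.range y)) →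
        Z.ncard ≤ (1 + d * (2 * m + 1) ^ 2) ^ (2 ^ h)

/-- Good lattices: minimum at least `1`, and every group generated by `d ≤ n / 2` linearly
independent elements of norm at most `r` has index at most `Q` in the section of the lattice. -/
structure Good (n : ℕ) (L : AddSubgroup (E n)) (r Q : ℝ) : Prop where
  sep : ∀ x ∈ L, x ≠ 0 → 1 ≤ ‖x‖
  index : ∀ (d : ℕ) (y : Fin d → E n), 2 * d ≤ n → LinearIndependent ℝ y →
    (∀ j, y j ∈ L ∧ ‖y j‖ ≤ r) → ∀ Z : Set (E n), Z.Finite →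
    (∀ z ∈ Z, z ∈ L ∧ z ∈ Submodule.span ℝ (Set.range y)) →
    (∀ z ∈ Z, ∀ z' ∈ Z, z - z' ∈ AddSubgroup.closure (Set.range y) → z = z') →
    (Z.ncard : ℝ) ≤ Q

/-- PIECE SEC (prove `S_GROW → S_COSET → S_SEC`). (150 lines) Assume `Y` nonempty. Let `d, y` be as
in S_COSET, `2 d ≤ n`. For `m = 2 ^ s` and `h = 2 s + 1` choose representatives of the classes of
`sums m Y` modulo the group generated by `y`; subtracting one fixed element they satisfy the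
hypotheses of `Good.index` (differences of elements of `sums m Y` are sums of elements of `Y - Y`,
so in `L` and in the span), so there are at most `q ^ n` classes and
`|sums (2 ^ s) Y| ≤ q ^ n (1 + n (2 ^ (s + 1) + 1) ^ 2) ^ (2 ^ (2 s + 1)) ≤ (2 q) ^ n` for
`n ≥ n₀(s)`. Apply S_GROW with `Γ = E n`, `B = (2 q) ^ (n / s)` (real power): `S`, `T` with
`|S| ≤ 480 (n / s) log (2 q) + 1`, `|T| ≤ (2 q) ^ (185 n / s)`. One class
`Y_t = {x ∈ Y | x - t ∈ closure S}` has `|Y| ≤ |T| |Y_t|`, its differences are in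
`span ℝ S`, of dimension `≤ |S|`, of norm `≤ ρ`, and `≥ 1` for different points, so
`|Y_t| ≤ (2 ρ + 1) ^ |S|` by packing: `Pool.Agent.R934.LB.card_le_sep`
(`Pool/Agent/R934/LB/Pack.lean`) in the subspace. For `s` large (fixed) and `n ≥ n₀`,
`(2 q) ^ (185 n / s) (2 ρ + 1) ^ (480 (n / s) log (2 q) + 1) ≤ 2 ^ (n / 10)`. -/
def S_SEC : Prop :=
  ∀ ρ q : ℝ, 1 ≤ ρ → 1 ≤ q → ∃ n₀ : ℕ, ∀ n ≥ n₀, ∀ L : AddSubgroup (E n),
    Good n L ρ (q ^ n) → ∀ Y : Set (E n), Y.Finite →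
    (∀ x ∈ Y, ∀ y ∈ Y, x - y ∈ L ∧ ‖x - y‖ ≤ ρ) →
    2 * Module.finrank ℝ (Submodule.span ℝ (Y - Y)) ≤ n →
    (Y.ncard : ℝ) ≤ (2 : ℝ) ^ ((n : ℝ) / 10)

/-- PIECE MOM (moments of the kernel of a random matrix over `ℤ / N`). (150 lines)
`Σ_y |ker y| ^ k = Σ_(α₁, …, α_k) #{y | y α_i = 0 for all i}`, and for the group `Γ` generated by
the `α_i` the number of rows `r` with `r · α = 0` for all `α ∈ Γ` is `N ^ d / |Γ|` (sum the
character `e(r · α / N)`, `ZMod.stdAddChar`, over all `r` and all `α ∈ Γ`, in two ways), so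
`#{y | y α_i = 0} = (N ^ d / |Γ|) ^ n`. So it is enough that
`Z_k(a) := Σ_(α₁, …, α_k) |⟨α₁, …, α_k⟩| ^ (- a) ≤ 2 ^ k` if `a ≥ d + k + 1`. Now for a
subgroup `Γ`, `|⟨Γ, α⟩| = |Γ| s` with `s` the order of `α` modulo `Γ`, and
`#{α | s α ∈ Γ} ≤ |Γ| #{α | s α = 0} ≤ |Γ| s ^ d`, so
`Σ_α |⟨Γ, α⟩| ^ (- a) ≤ |Γ| ^ (1 - a) Σ_s s ^ (d - a) ≤ 2 |Γ| ^ (1 - a)` as `a - d ≥ 2`, that is
`Z_k(a) ≤ 2 Z_(k-1)(a - 1)`. Then Markov. -/
def S_MOM : Prop :=
  ∀ (n d k N : ℕ) [NeZero N], d + k + 1 ≤ n → ∀ Q : ℝ, 0 < Q →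
    (Nat.card {y : Fin d → Fin n → ZMod N //
      Q < Nat.card {α : Fin d → ZMod N // ∀ i, ∑ j, y j i * α j = 0}} : ℝ) * Q ^ k ≤
      2 ^ k * (N : ℝ) ^ (n * d)

/-- PIECE RES. (80 lines) Write `y j i = N u + v` with `0 ≤ v < N`. The map `y ↦ (residues, u)` is
injective and `Σ_i u_i ^ 2 ≤ (r / N + 1) ^ 2 n` (triangle inequality, `|v / N| ≤ 1`), so for each `j`
there are at most `(15 (1 + (r / N + 1) / 2)) ^ n ≤ (15 r / N) ^ n` vectors `u`, by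
`Pool.Agent.R934.LB.count_le` (`Pool/Agent/R934/LB/Count.lean`) and `r / N ≥ 3`. -/
def S_RES : Prop :=
  ∀ (n d N : ℕ) (r : ℝ) [NeZero N], 3 * (N : ℝ) ≤ r → ∀ (P : (Fin d → Fin n → ZMod N) → Prop)
    (F : Finset (Fin d → Fin n → ℤ)),
    (∀ y ∈ F, (∀ j, ∑ i, (y j i : ℝ) ^ 2 ≤ r ^ 2 * n) ∧ P (fun j i => (y j i : ZMod N))) →
    (F.card : ℝ) ≤ (15 * r / N) ^ (n * d) * (Nat.card {v // P v} : ℝ)

/-- PIECE PERP. (80 lines) Some `d × d` minor of the real matrix `y` is not zero (rank); it is an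
integer of absolute value `≤ d! M ^ d < p`, so it is not zero mod `p` and the linear map
`γ ↦ (Σ_i γ_i y_(j,i))_j` from `F_p ^ n` to `F_p ^ d` is onto. -/
def S_PERP : Prop :=
  ∀ (n d p M : ℕ) [Fact p.Prime] (y : Fin d → Fin n → ℤ),
    LinearIndependent ℝ (fun j => (fun i => (y j i : ℝ) : Fin n → ℝ)) → (∀ j i, |y j i| ≤ M) →
    d.factorial * M ^ d < p →
    Nat.card {γ : Fin n → ZMod p // ∀ j, ∑ i, γ i * (y j i : ZMod p) = 0} * p ^ d ≤ p ^ n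

/-- PIECE KER. (60 lines) For `z ∈ Z` write `N z = Σ_j c_j(z) y_j`, with integers `c_j(z)`. Then
`c(z)` mod `N` is in the kernel, and it determines the class of `z`: if `c(z) ≡ c(z')` mod `N`
then `N (z - z') ∈ N ⟨y⟩`, so `z - z' ∈ ⟨y⟩`, and `z = z'`. -/
def S_KER : Prop :=
  ∀ (n d N : ℕ) [NeZero N] (y : Fin d → Fin n → ℤ) (Z : Finset (Fin n → ℤ)),
    (∀ z ∈ Z, N • z ∈ AddSubgroup.closure (Set.range y)) →
    (∀ z ∈ Z, ∀ z' ∈ Z, z - z' ∈ AddSubgroup.closure (Set.range y) → z = z') →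
    Z.card ≤ Nat.card {α : Fin d → ZMod N // ∀ i, ∑ j, (y j i : ZMod N) * α j = 0}

/-- PIECE PIDX. (80 lines) For `k = 0, …, M₀` subtract from `k z` an element of the group `⟨y⟩` to get
`x_k = Σ_j t_j y_j`, `0 ≤ t_j < 1` (`z = Σ τ_j y_j`, take fractional parts of `k τ_j`): `x_k ∈ L`,
`‖x_k‖ ≤ d ρ`. By packing (`Pool.Agent.R934.LB.card_le_sep`) there are at most
`(2 d ρ + 1) ^ n ≤ M₀` different `x_k`, so `x_k = x_(k')` for some `k < k'`, that is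
`(k' - k) z ∈ ⟨y⟩`, and `k' - k` divides `M₀!`. -/
def S_PIDX : Prop :=
  ∀ (n d M₀ : ℕ) (ρ : ℝ) (L : AddSubgroup (E n)), 0 ≤ ρ → (∀ x ∈ L, x ≠ 0 → 1 ≤ ‖x‖) →
    ∀ y : Fin d → E n, (∀ j, y j ∈ L ∧ ‖y j‖ ≤ ρ) → (2 * (d * ρ) + 1) ^ n ≤ (M₀ : ℝ) →
    ∀ z ∈ L, z ∈ Submodule.span ℝ (Set.range y) →
      M₀.factorial • z ∈ AddSubgroup.closure (Set.range y)

/-- PIECE SHORT. (50 lines) For each integer vector `x ≠ 0` with `Σ x_i ^ 2 ≤ w ^ 2 n` some `x_i` is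
not `0` mod `p` (`x_i ^ 2 ≤ w ^ 2 n < p ^ 2`), so `p ^ (n - 1)` of the `γ` are orthogonal to it;
there are at most `(15 (1 + w / 2)) ^ n ≤ (15 w) ^ n ≤ p / 4` such `x`
(`Pool.Agent.R934.LB.count_le`). -/
def S_SHORT : Prop :=
  ∀ (n p : ℕ) [Fact p.Prime] (w : ℝ), 1 ≤ n → 2 ≤ w → (15 * w) ^ n ≤ (p : ℝ) / 4 →
    w ^ 2 * n < (p : ℝ) ^ 2 →
    4 * Nat.card {γ : Fin n → ZMod p // ∃ x : Fin n → ℤ, x ≠ 0 ∧ ∑ i, (x i : ℝ) ^ 2 ≤ w ^ 2 * n ∧
      ∑ i, γ i * (x i : ZMod p) = 0} ≤ p ^ n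

/-- PIECE SIZE. (50 lines) Pigeonhole: of the `b ^ n` vectors of the cube `{0, …, b - 1} ^ n` at
least `b ^ n / p` have the same `γ · x`; subtract one of them. -/
def S_SIZE : Prop :=
  ∀ (n p b : ℕ) [Fact p.Prime] (γ : Fin n → ZMod p),
    ∃ F : Finset (Fin n → ℤ), (∀ x ∈ F, ∑ i, γ i * (x i : ZMod p) = 0 ∧
      ∑ i, (x i : ℝ) ^ 2 ≤ (b : ℝ) ^ 2 * n) ∧ (b : ℝ) ^ n ≤ p * F.card

/-- PIECE LAT (prove `S_MOM → S_RES → S_PERP → S_KER → S_PIDX → S_SHORT → S_SIZE → S_LAT`).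
(200 lines) `c₁ = 1 / 120`, `q = 8 ρ ^ 2`. Given `n` (large) let `M₀ ≥ (2 n ρ + 1) ^ n`,
`N = M₀!`, then `p` a prime, large in terms of `n, ρ, N`, and `w = (p / 4) ^ (1 / n) / 15`, so
`(15 w) ^ n = p / 4`. Let `L` be the set of the vectors `x / (w √n)`, `x ∈ ℤ ^ n`, `γ · x = 0` in
`F_p`. Count the bad `γ ∈ F_p ^ n`. By SHORT at most `p ^ n / 4` of the `γ` violate `sep`.
Suppose that `γ` satisfies `sep` and violates `index` with `d, y, Z` (`d ≥ 1`; for `d = 0` there is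
at most one `z`). Multiply by `w √n`: integer vectors `y_j`, `z`, `Σ_i y_(j,i) ^ 2 ≤ (ρ w) ^ 2 n`,
`N z ∈ ⟨y⟩` by PIDX (applied in `L`), so by KER the kernel of `y` mod `N` has more than
`q ^ n` elements. The number of the integer `y : Fin d → Fin n → ℤ` with
`Σ_i y_(j,i) ^ 2 ≤ (ρ w) ^ 2 n` for all `j` and kernel mod `N` larger than `q ^ n` is by RES and MOM
(`r = ρ w`, `k = n - d - 1`, `Q = q ^ n`) at most `(15 ρ w / N) ^ (n d) 2 ^ k q ^ (- n k) N ^ (n d)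
= (ρ ^ n p / 4) ^ d 2 ^ k q ^ (- n k)`, and for each which is linearly independent the number of
the `γ` orthogonal to all `y_j` is `≤ p ^ (n - d)` by PERP (`M = ⌊ρ w √n⌋`; `n! M ^ d < p` since
`d ≤ n / 2` and `p` is large). So the number of the bad `γ` is at most
`p ^ n / 4 + p ^ n Σ_(1 ≤ d ≤ n / 2) ρ ^ (n d) 2 ^ k q ^ (- n k) < p ^ n`, since `k ≥ n / 2 - 1 ≥ n / 4`
(`n ≥ 4`), `q ^ n / 2 ≥ (q / 2) ^ n`, and so each term is
`≤ (2 ρ ^ 2 / q) ^ (n ^ 2 / 4) = 2 ^ (- n ^ 2 / 2)`.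
For the size apply SIZE with `b = ⌊s w⌋ ≥ s w / 2`: at least
`(s w / 2) ^ n / p = (s / 30) ^ n / 4 ≥ (s / 120) ^ n` elements (the set is finite by `sep`, or
because it is contained in the image of a finite set of integer vectors). -/
def S_LAT : Prop :=
  ∃ c₁ : ℝ, 0 < c₁ ∧ ∀ ρ : ℝ, 1 ≤ ρ → ∃ q : ℝ, 1 ≤ q ∧ ∃ n₀ : ℕ, ∀ n ≥ n₀,
    ∃ L : AddSubgroup (E n), Good n L ρ (q ^ n) ∧
      ∀ s : ℕ, 1 ≤ s → (c₁ * s) ^ n ≤ (({x : E n | x ∈ L ∧ ‖x‖ ≤ s}.ncard : ℕ) : ℝ)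

end Run7.h814.PFN
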