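import Mathlib
import Pool.Agent.Run7.h814.PFN.Iface

/-! Piece KER of project PFN (helper344). -/

set_option autoImplicit false

namespace Run7.h814.PFN.KER

open Run7.h814.PFN

theorem mem_clo {n d : ℕ} (y : Fin d → Fin n → ℤ) (x : Fin n → ℤ) :
    x ∈ AddSubgroup.closure (Set.range y) ↔ ∃ c : Fin d → ℤ, ∑ j, c j • y j = x := by
  rw [← Submodule.span_int_eq_addSubgroupClosure, Submodule.mem_toAddSubgroup,
    Submodule.mem_span_range_iff_exists_fun]

theorem t : S_KER := by
  intro n d N hN y Z h1 h2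
  classical
  have hN0 : (N : ℤ) ≠ 0 := by exact_mod_cast NeZero.ne N
  have hc : ∀ z : Z, ∃ c : Fin d → ℤ, ∑ j, c j • y j = N • (z : Fin n → ℤ) :=
    fun z => (mem_clo y _).1 (h1 z z.2)
  choose c hc using hc
  have hker : ∀ z : Z, ∀ i, ∑ j, (y j i : ZMod N) * ((c z j : ℤ) : ZMod N) = 0 := by
    intro z i
    have h := congrFun (hc z) i
    have h' := congrArg (fun t : ℤ => (t : ZMod N)) h
    simp only [Finset.sum_apply, Pi.smul_apply, smul_eq_mul, nsmul_eq_mul] at h'
    push_cast at h'
    rw [ZMod.natCast_self, zero_mul] at h'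
    rw [← h']
    exact Finset.sum_congr rfl fun j _ => mul_comm _ _
  let f : Z → {α : Fin d → ZMod N // ∀ i, ∑ j, (y j i : ZMod N) * α j = 0} :=
    fun z => ⟨fun j => ((c z j : ℤ) : ZMod N), hker z⟩
  have hf : Function.Injective f := by
    intro z z' hzz
    have h3 : ∀ j, ((c z j : ℤ) : ZMod N) = ((c z' j : ℤ) : ZMod N) :=
      fun j => congrFun (Subtype.ext_iff.1 hzz) j
    have h4 : ∀ j, (N : ℤ) ∣ c z j - c z' j := fun j =>
      (ZMod.intCast_eq_intCast_iff_dvd_sub _ _ N).1 (h3 j).symm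
    choose e he using h4
    have h5 : (z : Fin n → ℤ) - z' ∈ AddSubgroup.closure (Set.range y) := by
      rw [mem_clo]
      refine ⟨e, ?_⟩
      have h6 : (N : ℤ) • ∑ j, e j • y j = (N : ℤ) • ((z : Fin n → ℤ) - z') := by
        rw [smul_sub, Finset.smul_sum, natCast_zsmul, natCast_zsmul, ← hc z, ← hc z',
          ← Finset.sum_sub_distrib]
        refine Finset.sum_congr rfl fun j _ => ?_
        rw [smul_smul, ← he j, sub_smul]
      exact smul_right_injective _ hN0 h6
    exact Subtype.ext (h2 z z.2 z' z'.2 h5)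
  have := Nat.card_le_card_of_injective f hf
  simpa using this

end Run7.h814.PFN.KER
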