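import Pool.Agent.Run7.h814.PFN.Iface

/-!
# Piece LAT of the project PFN: the random lattice
-/

set_option autoImplicit false
open scoped Pointwise

namespace Run7.h814.PFN.LAT

open Run7.h814.PFN

/-- integer vectors scaled by `c` -/
noncomputable def phi (n : ℕ) (c : ℝ) : (Fin n → ℤ) →+ E n where
  toFun z := WithLp.toLp 2 (fun i => c * (z i : ℝ))
  map_zero' := by ext i; simp
  map_add' a b := by ext i; simp [mul_add]

lemma phi_apply (n : ℕ) (c : ℝ) (z : Fin n → ℤ) (i : Fin n) : phi n c z i = c * (z i : ℝ) := rfl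

lemma norm_phi (n : ℕ) (c : ℝ) (z : Fin n → ℤ) :
    ‖phi n c z‖ ^ 2 = c ^ 2 * ∑ i, (z i : ℝ) ^ 2 := by
  rw [EuclideanSpace.norm_sq_eq, Finset.mul_sum]
  refine Finset.sum_congr rfl fun i _ => ?_
  rw [phi_apply, Real.norm_eq_abs, sq_abs]
  ring

lemma phi_inj (n : ℕ) {c : ℝ} (hc : c ≠ 0) : Function.Injective (phi n c) := by
  intro a b h
  funext i
  have := congrArg (fun v : E n => v i) h
  simp only [phi_apply] at this
  exact_mod_cast mul_left_cancel₀ hc this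

/-- the functional `x ↦ γ · x` modulo `p` -/
def fnl (n p : ℕ) (γ : Fin n → ZMod p) : (Fin n → ℤ) →+ ZMod p where
  toFun z := ∑ i, γ i * (z i : ZMod p)
  map_zero' := by simp
  map_add' a b := by simp [mul_add, Finset.sum_add_distrib]

lemma fnl_apply (n p : ℕ) (γ : Fin n → ZMod p) (z : Fin n → ℤ) :
    fnl n p γ z = ∑ i, γ i * (z i : ZMod p) := rfl

/-- the lattice -/
noncomputable def Lat (n p : ℕ) (c : ℝ) (γ : Fin n → ZMod p) : AddSubgroup (E n) :=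
  (fnl n p γ).ker.map (phi n c)

lemma mem_Lat {n p : ℕ} {c : ℝ} {γ : Fin n → ZMod p} {x : E n} :
    x ∈ Lat n p c γ ↔ ∃ z : Fin n → ℤ, ∑ i, γ i * (z i : ZMod p) = 0 ∧ phi n c z = x := by
  unfold Lat
  rw [AddSubgroup.mem_map]
  rfl

lemma norm_phi_le {n : ℕ} (hn : 1 ≤ n) {w r : ℝ} (hw : 0 < w) (hr : 0 ≤ r) (z : Fin n → ℤ) :
    ‖phi n ((w * √n)⁻¹) z‖ ≤ r ↔ ∑ i, (z i : ℝ) ^ 2 ≤ (r * w) ^ 2 * n := by
  have hn' : (0 : ℝ) < n := by exact_mod_cast hn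
  have h1 : ((w * √n)⁻¹) ^ 2 = (w ^ 2 * n)⁻¹ := by
    rw [inv_pow, mul_pow, Real.sq_sqrt hn'.le]
  have h2 : 0 < w ^ 2 * n := by positivity
  rw [← sq_le_sq₀ (norm_nonneg _) hr, norm_phi, h1, inv_mul_le_iff₀ h2]
  constructor <;> intro h <;> nlinarith

lemma closure_map {n d : ℕ} {c : ℝ} (hc : c ≠ 0) (Y : Fin d → Fin n → ℤ) (z : Fin n → ℤ) :
    phi n c z ∈ AddSubgroup.closure (Set.range fun j => phi n c (Y j)) ↔
      z ∈ AddSubgroup.closure (Set.range Y) := by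
  have h : (Set.range fun j => phi n c (Y j)) = phi n c '' Set.range Y := by
    rw [← Set.range_comp]; rfl
  rw [h, ← AddMonoidHom.map_closure, AddSubgroup.mem_map]
  constructor
  · rintro ⟨x, hx, hxz⟩
    rwa [← phi_inj n hc hxz]
  · intro hz
    exact ⟨z, hz, rfl⟩

lemma linInd_of {n d : ℕ} {c : ℝ} (Y : Fin d → Fin n → ℤ)
    (h : LinearIndependent ℝ fun j => phi n c (Y j)) :
    LinearIndependent ℝ (fun j => (fun i => (Y j i : ℝ) : Fin n → ℝ)) := by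
  have h2 : (fun j => phi n c (Y j)) =
      fun j => (c • (WithLp.linearEquiv 2 ℝ (Fin n → ℝ)).symm.toLinearMap :
        (Fin n → ℝ) →ₗ[ℝ] E n) (fun i => (Y j i : ℝ)) := by
    funext j
    ext i
    simp [phi_apply]
  rw [h2] at h
  exact LinearIndependent.of_comp _ h

theorem good_of (hPI : S_PIDX) (hK : S_KER) (n p : ℕ) (w ρ q : ℝ) (hn : 1 ≤ n) (hw : 0 < w)
    (hρ : 1 ≤ ρ) (hq : 1 ≤ q) (M₀ : ℕ) (hM₀ : (2 * (n * ρ) + 1) ^ n ≤ (M₀ : ℝ))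
    (γ : Fin n → ZMod p)
    (h1 : ¬ ∃ x : Fin n → ℤ, x ≠ 0 ∧ ∑ i, (x i : ℝ) ^ 2 ≤ w ^ 2 * n ∧
      ∑ i, γ i * (x i : ZMod p) = 0)
    (h2 : ∀ d, 1 ≤ d → 2 * d ≤ n → ∀ Y : Fin d → Fin n → ℤ,
      LinearIndependent ℝ (fun j => (fun i => (Y j i : ℝ) : Fin n → ℝ)) →
      (∀ j, ∑ i, (Y j i : ℝ) ^ 2 ≤ (ρ * w) ^ 2 * n) →
      (∀ j, ∑ i, γ i * (Y j i : ZMod p) = 0) →
      (Nat.card {α : Fin d → ZMod M₀.factorial //
        ∀ i, ∑ j, (Y j i : ZMod M₀.factorial) * α j = 0} : ℝ) ≤ q ^ n) :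
    Good n (Lat n p ((w * √n)⁻¹) γ) ρ (q ^ n) := by
  have hn' : (0 : ℝ) < n := by exact_mod_cast hn
  have hc : (w * √n)⁻¹ ≠ 0 := by positivity
  set c : ℝ := (w * √n)⁻¹ with hcdef
  have hsep : ∀ x ∈ Lat n p c γ, x ≠ 0 → 1 ≤ ‖x‖ := by
    intro x hx hx0
    obtain ⟨z, hz, rfl⟩ := mem_Lat.1 hx
    by_contra hlt
    push Not at hlt
    apply h1
    refine ⟨z, ?_, ?_, hz⟩
    · rintro rfl
      exact hx0 (map_zero _)
    · have := (norm_phi_le hn hw zero_le_one z).1 hlt.le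
      simpa using this
  refine ⟨hsep, ?_⟩
  intro d y hd hli hy Z hZ hZL hZc
  -- pull back to integer vectors
  choose Y hY0 hYy using fun j => mem_Lat.1 (hy j).1
  have hyY : y = fun j => phi n c (Y j) := by funext j; exact (hYy j).symm
  have hYn : ∀ j, ∑ i, (Y j i : ℝ) ^ 2 ≤ (ρ * w) ^ 2 * n := by
    intro j
    have h3 := (hy j).2
    rw [← hYy j] at h3
    exact (norm_phi_le hn hw (by linarith) (Y j)).1 h3
  have hdn : (d : ℝ) ≤ n := by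
    have : d ≤ n := by omega
    exact_mod_cast this
  have hM : (2 * (d * ρ) + 1) ^ n ≤ (M₀ : ℝ) := by
    refine le_trans (pow_le_pow_left₀ (by positivity) ?_ n) hM₀
    have : (d : ℝ) * ρ ≤ n * ρ := mul_le_mul_of_nonneg_right hdn (by linarith)
    linarith
  -- the finite set of integer vectors
  have hpre : ∀ z ∈ Z, ∃ z' : Fin n → ℤ, phi n c z' = z := by
    intro z hz
    obtain ⟨z', -, h⟩ := mem_Lat.1 (hZL z hz).1
    exact ⟨z', h⟩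
  have hinj := phi_inj n hc
  let Z' : Set (Fin n → ℤ) := phi n c ⁻¹' Z
  have hZ'fin : Z'.Finite := hZ.preimage hinj.injOn
  have himg : phi n c '' Z' = Z := by
    apply Set.image_preimage_eq_of_subset
    intro z hz
    obtain ⟨z', h⟩ := hpre z hz
    exact ⟨z', h⟩
  have hcard : Z.ncard = hZ'fin.toFinset.card := by
    rw [← himg, Set.ncard_image_of_injective _ hinj, Set.ncard_eq_toFinset_card _ hZ'fin]
  have : NeZero M₀.factorial := ⟨Nat.factorial_ne_zero _⟩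
  have hker := hK n d M₀.factorial Y hZ'fin.toFinset ?_ ?_
  · rw [hcard]
    refine le_trans (Nat.cast_le.2 hker) ?_
    rcases Nat.eq_zero_or_pos d with rfl | hd0
    · have : Nat.card {α : Fin 0 → ZMod M₀.factorial //
        ∀ i, ∑ j, (Y j i : ZMod M₀.factorial) * α j = 0} ≤ 1 := by
        rw [Nat.card_eq_fintype_card]
        exact Fintype.card_le_one_iff_subsingleton.2 inferInstance
      have h5 : (1 : ℝ) ≤ q ^ n := one_le_pow₀ hq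
      calc ((Nat.card {α : Fin 0 → ZMod M₀.factorial //
        ∀ i, ∑ j, (Y j i : ZMod M₀.factorial) * α j = 0} : ℕ) : ℝ) ≤ ((1 : ℕ) : ℝ) := by
              exact_mod_cast this
        _ ≤ q ^ n := by simpa using h5
    · refine h2 d hd0 hd Y ?_ hYn hY0
      apply linInd_of (c := c)
      rw [← hyY]
      exact hli
  · intro z hz
    have hz' : phi n c z ∈ Z := by simpa [Z'] using hz
    have h3 := hPI n d M₀ ρ (Lat n p c γ) (by linarith) hsep y hy hM (phi n c z) (hZL _ hz').1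
      (hZL _ hz').2
    rw [← map_nsmul, hyY, closure_map hc] at h3
    exact h3
  · intro z hz z' hz' hzz
    have hz1 : phi n c z ∈ Z := by simpa [Z'] using hz
    have hz2 : phi n c z' ∈ Z := by simpa [Z'] using hz'
    apply hinj
    apply hZc _ hz1 _ hz2
    rw [← map_sub, hyY, closure_map hc]
    exact hzz

/-- the set of bad integer matrices -/
def Bad (n d N : ℕ) (r Q : ℝ) : Set (Fin d → Fin n → ℤ) :=
  {Y | (∀ j, ∑ i, (Y j i : ℝ) ^ 2 ≤ r ^ 2 * n) ∧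
    Q < Nat.card {α : Fin d → ZMod N // ∀ i, ∑ j, (Y j i : ZMod N) * α j = 0}}

lemma entry_le {n d : ℕ} {r : ℝ} (hr : 0 ≤ r) (Y : Fin d → Fin n → ℤ)
    (h : ∀ j, ∑ i, (Y j i : ℝ) ^ 2 ≤ r ^ 2 * n) (j : Fin d) (i : Fin n) :
    |Y j i| ≤ (⌊r * √n⌋₊ : ℤ) := by
  have h1 : (Y j i : ℝ) ^ 2 ≤ r ^ 2 * n :=
    le_trans (Finset.single_le_sum (f := fun i => (Y j i : ℝ) ^ 2) (fun i _ => sq_nonneg _)
      (Finset.mem_univ i)) (h j)
  have h2 : |(Y j i : ℝ)| ≤ r * √n := by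
    apply abs_le_of_sq_le_sq _ (by positivity)
    rw [mul_pow, Real.sq_sqrt (Nat.cast_nonneg n)]
    exact h1
  have h3 : ((Y j i).natAbs : ℝ) ≤ r * √n := by
    rw [Nat.cast_natAbs, Int.cast_abs]
    exact h2
  have h4 : (Y j i).natAbs ≤ ⌊r * √n⌋₊ := Nat.le_floor h3
  rw [Int.abs_eq_natAbs]
  exact_mod_cast h4

lemma bad_finite {n d N : ℕ} {r Q : ℝ} (hr : 0 ≤ r) : (Bad n d N r Q).Finite := by
  refine (Set.finite_Icc (fun _ _ => -(⌊r * √n⌋₊ : ℤ) : Fin d → Fin n → ℤ)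
    (fun _ _ => (⌊r * √n⌋₊ : ℤ))).subset ?_
  intro Y hY
  refine ⟨fun j i => ?_, fun j i => ?_⟩
  · exact (abs_le.1 (entry_le hr Y hY.1 j i)).1
  · exact (abs_le.1 (entry_le hr Y hY.1 j i)).2

lemma bad_card (hR : S_RES) (hM : S_MOM) (n d N : ℕ) [NeZero N] (w ρ q P : ℝ) (hd : d + 1 ≤ n)
    (hr : 3 * (N : ℝ) ≤ ρ * w) (hr0 : 0 ≤ ρ * w) (hq : 0 < q) (hwp : (15 * w) ^ n = P / 4) :
    ((bad_finite (n := n) (d := d) (N := N) (Q := q ^ n) hr0).toFinset.card : ℝ) *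
      q ^ (n * (n - d - 1)) ≤ (P / 4) ^ d * (ρ ^ (n * d) * 2 ^ (n - d - 1)) := by
  have hN : (0 : ℝ) < N := by exact_mod_cast (NeZero.pos N)
  have h1 := hR n d N (ρ * w) hr
    (fun v => q ^ n < Nat.card {α : Fin d → ZMod N // ∀ i, ∑ j, v j i * α j = 0})
    (bad_finite (n := n) (d := d) (N := N) (Q := q ^ n) hr0).toFinset (by
      intro Y hY
      rw [Set.Finite.mem_toFinset] at hY
      exact hY)
  have h2 := hM n d (n - d - 1) N (by omega) (q ^ n) (by positivity)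
  rw [← pow_mul] at h2
  calc _ ≤ ((15 * (ρ * w) / N) ^ (n * d) * (Nat.card {v : Fin d → Fin n → ZMod N //
        q ^ n < Nat.card {α : Fin d → ZMod N // ∀ i, ∑ j, v j i * α j = 0}} : ℝ)) *
        q ^ (n * (n - d - 1)) := mul_le_mul_of_nonneg_right h1 (by positivity)
    _ = (15 * (ρ * w) / N) ^ (n * d) * ((Nat.card {v : Fin d → Fin n → ZMod N //
        q ^ n < Nat.card {α : Fin d → ZMod N // ∀ i, ∑ j, v j i * α j = 0}} : ℝ) *
        q ^ (n * (n - d - 1))) := by ring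
    _ ≤ (15 * (ρ * w) / N) ^ (n * d) * (2 ^ (n - d - 1) * (N : ℝ) ^ (n * d)) :=
        mul_le_mul_of_nonneg_left h2 (by positivity)
    _ = (15 * (ρ * w)) ^ (n * d) * 2 ^ (n - d - 1) := by
        rw [div_pow]; field_simp
    _ = (P / 4) ^ d * (ρ ^ (n * d) * 2 ^ (n - d - 1)) := by
        rw [← hwp, ← pow_mul]
        rw [show 15 * (ρ * w) = (15 * w) * ρ by ring, mul_pow]
        ring

lemma bad_card' (hR : S_RES) (hM : S_MOM) (n d N : ℕ) [NeZero N] (w ρ P : ℝ) (hn : 4 ≤ n)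
    (hd : 2 * d ≤ n) (hρ : 1 ≤ ρ) (hP : 0 ≤ P)
    (hr : 3 * (N : ℝ) ≤ ρ * w) (hr0 : 0 ≤ ρ * w) (hwp : (15 * w) ^ n = P / 4) :
    ((bad_finite (n := n) (d := d) (N := N) (Q := (8 * ρ ^ 2) ^ n) hr0).toFinset.card : ℝ)
      ≤ (P / 4) ^ d := by
  have h := bad_card hR hM n d N w ρ (8 * ρ ^ 2) P (by omega) hr hr0 (by positivity) hwp
  obtain ⟨k, hk⟩ : ∃ k, n - d - 1 = k := ⟨_, rfl⟩
  rw [hk] at h
  have hkd : n * d ≤ 2 * (n * k) := by
    have : d ≤ 2 * k := by omega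
    calc n * d ≤ n * (2 * k) := Nat.mul_le_mul_left _ this
      _ = _ := by ring
  have h1 : ρ ^ (n * d) * 2 ^ k ≤ (8 * ρ ^ 2) ^ (n * k) := by
    rw [mul_pow, ← pow_mul, mul_comm]
    refine mul_le_mul ?_ (pow_le_pow_right₀ hρ hkd) (by positivity) (by positivity)
    calc (2 : ℝ) ^ k ≤ 8 ^ k := pow_le_pow_left₀ (by norm_num) (by norm_num) k
      _ ≤ 8 ^ (n * k) := pow_le_pow_right₀ (by norm_num) (Nat.le_mul_of_pos_left _ (by omega))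
  have h2 : (0 : ℝ) < (8 * ρ ^ 2) ^ (n * k) := by positivity
  have h3 := le_trans h (mul_le_mul_of_nonneg_left h1 (by positivity : (0 : ℝ) ≤ (P / 4) ^ d))
  exact le_of_mul_le_mul_right h3 h2

lemma gamma_count (hPe : S_PERP) (n d p M : ℕ) [Fact p.Prime] (F : Finset (Fin d → Fin n → ℤ))
    (hF : ∀ Y ∈ F, LinearIndependent ℝ (fun j => (fun i => (Y j i : ℝ) : Fin n → ℝ)) ∧
      ∀ j i, |Y j i| ≤ M) (hp : d.factorial * M ^ d < p)
    (hcard : (F.card : ℝ) ≤ ((p : ℝ) / 4) ^ d) :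
    (Nat.card {γ : Fin n → ZMod p // ∃ Y ∈ F, ∀ j, ∑ i, γ i * (Y j i : ZMod p) = 0} : ℝ) ≤
      (p : ℝ) ^ n * (1 / 4) ^ d := by
  classical
  have hp0 : (0 : ℝ) < p := by exact_mod_cast (Fact.out : p.Prime).pos
  have h1 : Nat.card {γ : Fin n → ZMod p // ∃ Y ∈ F, ∀ j, ∑ i, γ i * (Y j i : ZMod p) = 0} ≤
      ∑ Y ∈ F, Nat.card {γ : Fin n → ZMod p // ∀ j, ∑ i, γ i * (Y j i : ZMod p) = 0} := by
    rw [Nat.card_eq_fintype_card, Fintype.card_subtype]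
    refine le_trans (Finset.card_le_card (t := F.biUnion fun Y => Finset.univ.filter
      fun γ : Fin n → ZMod p => ∀ j, ∑ i, γ i * (Y j i : ZMod p) = 0) ?_) ?_
    · intro γ hγ
      simp only [Finset.mem_filter, Finset.mem_univ, true_and, Finset.mem_biUnion] at hγ ⊢
      exact hγ
    · refine le_trans Finset.card_biUnion_le (Finset.sum_le_sum fun Y _ => ?_)
      rw [Nat.card_eq_fintype_card, Fintype.card_subtype]
  have h2 : ∀ Y ∈ F, (Nat.card {γ : Fin n → ZMod p // ∀ j, ∑ i, γ i * (Y j i : ZMod p) = 0} : ℝ) ≤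
      (p : ℝ) ^ n / (p : ℝ) ^ d := by
    intro Y hY
    rw [le_div_iff₀ (by positivity)]
    exact_mod_cast hPe n d p M Y (hF Y hY).1 (hF Y hY).2 hp
  calc (Nat.card {γ : Fin n → ZMod p // ∃ Y ∈ F, ∀ j, ∑ i, γ i * (Y j i : ZMod p) = 0} : ℝ)
      ≤ ((∑ Y ∈ F, Nat.card {γ : Fin n → ZMod p //
          ∀ j, ∑ i, γ i * (Y j i : ZMod p) = 0} : ℕ) : ℝ) := Nat.cast_le.2 h1
    _ = ∑ Y ∈ F, (Nat.card {γ : Fin n → ZMod p //
          ∀ j, ∑ i, γ i * (Y j i : ZMod p) = 0} : ℝ) := by push_cast; rfl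
    _ ≤ ∑ Y ∈ F, (p : ℝ) ^ n / (p : ℝ) ^ d := Finset.sum_le_sum h2
    _ = F.card * ((p : ℝ) ^ n / (p : ℝ) ^ d) := by rw [Finset.sum_const, nsmul_eq_mul]
    _ ≤ ((p : ℝ) / 4) ^ d * ((p : ℝ) ^ n / (p : ℝ) ^ d) :=
        mul_le_mul_of_nonneg_right hcard (by positivity)
    _ = (p : ℝ) ^ n * (1 / 4) ^ d := by
        rw [div_pow, div_pow, one_pow]; field_simp

lemma geom_le (m : ℕ) : ∑ d ∈ Finset.Icc 1 m, ((1 : ℝ) / 4) ^ d ≤ 1 / 3 := by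
  have h : ∀ m : ℕ, ∑ d ∈ Finset.Icc 1 m, ((1 : ℝ) / 4) ^ d = (1 - (1 / 4) ^ m) / 3 := by
    intro m
    induction m with
    | zero => simp
    | succ m ih => rw [Finset.sum_Icc_succ_top (by omega), ih]; ring
  rw [h]
  have : (0 : ℝ) < (1 / 4) ^ m := by positivity
  linarith

theorem exists_gamma (hPe : S_PERP) (hR : S_RES) (hM : S_MOM) (hS : S_SHORT)
    (n N p : ℕ) [Fact p.Prime] [NeZero N] (w ρ : ℝ) (hn : 4 ≤ n) (hρ : 1 ≤ ρ)
    (hw2 : 2 ≤ w) (hwp : (15 * w) ^ n = (p : ℝ) / 4) (hwn : w ^ 2 * n < (p : ℝ) ^ 2)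
    (hN : 3 * (N : ℝ) ≤ ρ * w)
    (hfac : ∀ d, 2 * d ≤ n → d.factorial * ⌊ρ * w * √n⌋₊ ^ d < p) :
    ∃ γ : Fin n → ZMod p,
      (¬ ∃ x : Fin n → ℤ, x ≠ 0 ∧ ∑ i, (x i : ℝ) ^ 2 ≤ w ^ 2 * n ∧
        ∑ i, γ i * (x i : ZMod p) = 0) ∧
      (∀ d, 1 ≤ d → 2 * d ≤ n → ∀ Y : Fin d → Fin n → ℤ,
        LinearIndependent ℝ (fun j => (fun i => (Y j i : ℝ) : Fin n → ℝ)) →
        (∀ j, ∑ i, (Y j i : ℝ) ^ 2 ≤ (ρ * w) ^ 2 * n) →
        (∀ j, ∑ i, γ i * (Y j i : ZMod p) = 0) →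
        (Nat.card {α : Fin d → ZMod N //
          ∀ i, ∑ j, (Y j i : ZMod N) * α j = 0} : ℝ) ≤ (8 * ρ ^ 2) ^ n) := by
  classical
  have hp0 : (0 : ℝ) < p := by exact_mod_cast (Fact.out : p.Prime).pos
  have hr0 : 0 ≤ ρ * w := by positivity
  by_contra hcon
  push Not at hcon
  -- the finite sets
  let F : (d : ℕ) → Finset (Fin d → Fin n → ℤ) := fun d =>
    (bad_finite (n := n) (d := d) (N := N) (Q := (8 * ρ ^ 2) ^ n) hr0).toFinset.filter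
      fun Y => LinearIndependent ℝ (fun j => (fun i => (Y j i : ℝ) : Fin n → ℝ))
  have hF : ∀ d, 2 * d ≤ n →
      (Nat.card {γ : Fin n → ZMod p // ∃ Y ∈ F d, ∀ j, ∑ i, γ i * (Y j i : ZMod p) = 0} : ℝ) ≤
        (p : ℝ) ^ n * (1 / 4) ^ d := by
    intro d hd
    refine gamma_count hPe n d p ⌊ρ * w * √n⌋₊ (F d) ?_ (hfac d hd) ?_
    · intro Y hY
      simp only [F, Finset.mem_filter, Set.Finite.mem_toFinset] at hY
      exact ⟨hY.2, entry_le hr0 Y hY.1.1⟩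
    · refine le_trans ?_ (bad_card' hR hM n d N w ρ p hn hd hρ hp0.le hN hr0 hwp)
      exact_mod_cast Finset.card_filter_le _ _
  have hsh := hS n p w (by omega) hw2 hwp.le hwn
  -- union bound
  have hcov : Fintype.card (Fin n → ZMod p) ≤
      Nat.card {γ : Fin n → ZMod p // ∃ x : Fin n → ℤ, x ≠ 0 ∧ ∑ i, (x i : ℝ) ^ 2 ≤ w ^ 2 * n ∧
        ∑ i, γ i * (x i : ZMod p) = 0} +
      ∑ d ∈ Finset.Icc 1 (n / 2),
        Nat.card {γ : Fin n → ZMod p // ∃ Y ∈ F d, ∀ j, ∑ i, γ i * (Y j i : ZMod p) = 0} := by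
    rw [← Finset.card_univ]
    refine le_trans (Finset.card_le_card (t :=
      (Finset.univ.filter fun γ : Fin n → ZMod p => ∃ x : Fin n → ℤ, x ≠ 0 ∧
        ∑ i, (x i : ℝ) ^ 2 ≤ w ^ 2 * n ∧ ∑ i, γ i * (x i : ZMod p) = 0) ∪
      (Finset.Icc 1 (n / 2)).biUnion fun d => Finset.univ.filter
        fun γ : Fin n → ZMod p => ∃ Y ∈ F d, ∀ j, ∑ i, γ i * (Y j i : ZMod p) = 0) ?_) ?_
    · intro γ _
      rw [Finset.mem_union, Finset.mem_filter, Finset.mem_biUnion]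
      by_cases hx : ∃ x : Fin n → ℤ, x ≠ 0 ∧ ∑ i, (x i : ℝ) ^ 2 ≤ w ^ 2 * n ∧
          ∑ i, γ i * (x i : ZMod p) = 0
      · exact Or.inl ⟨Finset.mem_univ _, hx⟩
      · right
        obtain ⟨d, hd1, hd2, Y, hli, hYn, hY0, hY⟩ := hcon γ (by
          intro x hx0 hxn hxγ
          exact hx ⟨x, hx0, hxn, hxγ⟩)
        refine ⟨d, ?_, ?_⟩
        · rw [Finset.mem_Icc]; omega
        · rw [Finset.mem_filter]
          refine ⟨Finset.mem_univ _, Y, ?_, hY0⟩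
          simp only [F, Finset.mem_filter, Set.Finite.mem_toFinset]
          exact ⟨⟨hYn, hY⟩, hli⟩
    · refine le_trans (Finset.card_union_le _ _) ?_
      refine Nat.add_le_add ?_ ?_
      · rw [Nat.card_eq_fintype_card, Fintype.card_subtype]
      · refine le_trans Finset.card_biUnion_le (Finset.sum_le_sum fun d _ => ?_)
        rw [Nat.card_eq_fintype_card, Fintype.card_subtype]
  have hcardall : Fintype.card (Fin n → ZMod p) = p ^ n := by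
    rw [Fintype.card_fun, ZMod.card, Fintype.card_fin]
  rw [hcardall] at hcov
  have hcov' : (p : ℝ) ^ n ≤ (Nat.card {γ : Fin n → ZMod p // ∃ x : Fin n → ℤ, x ≠ 0 ∧
        ∑ i, (x i : ℝ) ^ 2 ≤ w ^ 2 * n ∧ ∑ i, γ i * (x i : ZMod p) = 0} : ℝ) +
      ∑ d ∈ Finset.Icc 1 (n / 2), (Nat.card {γ : Fin n → ZMod p //
        ∃ Y ∈ F d, ∀ j, ∑ i, γ i * (Y j i : ZMod p) = 0} : ℝ) := by
    exact_mod_cast hcov
  have hsh' : 4 * (Nat.card {γ : Fin n → ZMod p // ∃ x : Fin n → ℤ, x ≠ 0 ∧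
        ∑ i, (x i : ℝ) ^ 2 ≤ w ^ 2 * n ∧ ∑ i, γ i * (x i : ZMod p) = 0} : ℝ) ≤ (p : ℝ) ^ n := by
    exact_mod_cast hsh
  have hsum : ∑ d ∈ Finset.Icc 1 (n / 2), (Nat.card {γ : Fin n → ZMod p //
        ∃ Y ∈ F d, ∀ j, ∑ i, γ i * (Y j i : ZMod p) = 0} : ℝ) ≤ (p : ℝ) ^ n * (1 / 3) := by
    calc _ ≤ ∑ d ∈ Finset.Icc 1 (n / 2), (p : ℝ) ^ n * (1 / 4) ^ d := by
          refine Finset.sum_le_sum fun d hd => hF d ?_
          rw [Finset.mem_Icc] at hd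
          omega
      _ = (p : ℝ) ^ n * ∑ d ∈ Finset.Icc 1 (n / 2), ((1 : ℝ) / 4) ^ d := by rw [Finset.mul_sum]
      _ ≤ _ := mul_le_mul_of_nonneg_left (geom_le _) (by positivity)
  have : (0 : ℝ) < (p : ℝ) ^ n := by positivity
  linarith

theorem size_of (hSz : S_SIZE) (n p : ℕ) [Fact p.Prime] (w : ℝ) (hn : 1 ≤ n) (hw : 2 ≤ w)
    (hwp : (15 * w) ^ n = (p : ℝ) / 4) (γ : Fin n → ZMod p) (s : ℕ) (hs : 1 ≤ s) :
    (1 / 120 * (s : ℝ)) ^ n ≤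
      (({x : E n | x ∈ Lat n p ((w * √n)⁻¹) γ ∧ ‖x‖ ≤ s}.ncard : ℕ) : ℝ) := by
  have hn' : (0 : ℝ) < n := by exact_mod_cast hn
  have hw0 : 0 < w := by linarith
  have hc : (w * √n)⁻¹ ≠ 0 := by positivity
  have hp0 : (0 : ℝ) < p := by exact_mod_cast (Fact.out : p.Prime).pos
  have hs' : (1 : ℝ) ≤ s := by exact_mod_cast hs
  obtain ⟨F, hF, hFc⟩ := hSz n p ⌊(s : ℝ) * w⌋₊ γ
  have hsw : 2 ≤ (s : ℝ) * w := by nlinarith
  have hb1 : (s : ℝ) * w / 2 ≤ (⌊(s : ℝ) * w⌋₊ : ℝ) := by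
    have := Nat.lt_floor_add_one ((s : ℝ) * w)
    linarith
  have hb2 : (⌊(s : ℝ) * w⌋₊ : ℝ) ≤ (s : ℝ) * w := Nat.floor_le (by positivity)
  have hinj := phi_inj n hc
  have hfin : {x : E n | x ∈ Lat n p ((w * √n)⁻¹) γ ∧ ‖x‖ ≤ s}.Finite := by
    have h1 : {z : Fin n → ℤ | ∑ i, (z i : ℝ) ^ 2 ≤ (s * w) ^ 2 * n}.Finite := by
      refine (Set.finite_Icc (fun _ => -(⌊(s * w) * √n⌋₊ : ℤ) : Fin n → ℤ)
        (fun _ => (⌊(s * w) * √n⌋₊ : ℤ))).subset ?_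
      intro z hz
      have h2 := entry_le (n := n) (d := 1) (r := s * w) (by positivity) (fun _ => z)
        (fun _ => hz) 0
      exact ⟨fun i => (abs_le.1 (h2 i)).1, fun i => (abs_le.1 (h2 i)).2⟩
    refine (h1.image (phi n ((w * √n)⁻¹))).subset ?_
    rintro x ⟨hx, hxn⟩
    obtain ⟨z, -, rfl⟩ := mem_Lat.1 hx
    exact ⟨z, (norm_phi_le hn hw0 (by positivity) z).1 hxn, rfl⟩
  have hsub : phi n ((w * √n)⁻¹) '' (F : Set (Fin n → ℤ)) ⊆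
      {x : E n | x ∈ Lat n p ((w * √n)⁻¹) γ ∧ ‖x‖ ≤ s} := by
    rintro x ⟨z, hz, rfl⟩
    have hz' : z ∈ F := by simpa using hz
    refine ⟨mem_Lat.2 ⟨z, (hF z hz').1, rfl⟩, ?_⟩
    refine (norm_phi_le hn hw0 (by positivity) z).2 (le_trans (hF z hz').2 ?_)
    refine mul_le_mul_of_nonneg_right ?_ hn'.le
    exact pow_le_pow_left₀ (by positivity) hb2 2
  have hle : F.card ≤ {x : E n | x ∈ Lat n p ((w * √n)⁻¹) γ ∧ ‖x‖ ≤ s}.ncard := by
    have h1 := Set.ncard_le_ncard hsub hfin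
    rwa [Set.ncard_image_of_injective _ hinj, Set.ncard_coe_finset] at h1
  refine le_trans ?_ (Nat.cast_le.2 hle)
  have h3 : ((s : ℝ) / 30) ^ n * ((p : ℝ) / 4) ≤ p * F.card := by
    calc ((s : ℝ) / 30) ^ n * ((p : ℝ) / 4) = ((s : ℝ) * w / 2) ^ n := by
          rw [← hwp, ← mul_pow]; congr 1; ring
      _ ≤ (⌊(s : ℝ) * w⌋₊ : ℝ) ^ n := pow_le_pow_left₀ (by positivity) hb1 n
      _ ≤ _ := hFc
  have h4 : ((s : ℝ) / 30) ^ n * (1 / 4) ≤ F.card := by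
    have : ((s : ℝ) / 30) ^ n * ((p : ℝ) / 4) = p * (((s : ℝ) / 30) ^ n * (1 / 4)) := by ring
    rw [this] at h3
    exact le_of_mul_le_mul_left h3 hp0
  calc (1 / 120 * (s : ℝ)) ^ n = ((s : ℝ) / 30) ^ n * (1 / 4) ^ n := by
        rw [← mul_pow]; congr 1; ring
    _ ≤ ((s : ℝ) / 30) ^ n * (1 / 4) := by
        refine mul_le_mul_of_nonneg_left ?_ (by positivity)
        calc ((1 : ℝ) / 4) ^ n ≤ (1 / 4) ^ 1 :=
              pow_le_pow_of_le_one (by norm_num) (by norm_num) hn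
          _ = 1 / 4 := pow_one _
    _ ≤ F.card := h4

/-- **Piece LAT.** -/
theorem t : S_MOM → S_RES → S_PERP → S_KER → S_PIDX → S_SHORT → S_SIZE → S_LAT := by
  intro hM hR hPe hK hPI hS hSz
  refine ⟨1 / 120, by norm_num, fun ρ hρ => ⟨8 * ρ ^ 2, by nlinarith, 4, fun n hn => ?_⟩⟩
  have hn1 : 1 ≤ n := by omega
  have hnR : (0 : ℝ) < n := by exact_mod_cast hn1
  obtain ⟨M₀, hM₀⟩ := exists_nat_ge ((2 * (n * ρ) + 1) ^ n)
  have : NeZero M₀.factorial := ⟨Nat.factorial_ne_zero _⟩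
  have hN0 : (0 : ℝ) < (M₀.factorial : ℝ) := by exact_mod_cast Nat.factorial_pos _
  obtain ⟨K, hKK⟩ := exists_nat_ge (4 * (15 * (3 * (M₀.factorial : ℝ) + 2)) ^ n + (n + 1) +
    (n.factorial : ℝ) ^ 2 * (ρ * √n) ^ n)
  obtain ⟨p, hpK, hp⟩ := Nat.exists_infinite_primes K
  have : Fact p.Prime := ⟨hp⟩
  have hpR : (K : ℝ) ≤ p := by exact_mod_cast hpK
  have hp0 : (0 : ℝ) < p := by exact_mod_cast hp.pos
  have ha0 : 0 ≤ 4 * (15 * (3 * (M₀.factorial : ℝ) + 2)) ^ n := by positivity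
  have hb0 : 0 ≤ (n.factorial : ℝ) ^ 2 * (ρ * √n) ^ n := by positivity
  have hpa : (15 * (3 * (M₀.factorial : ℝ) + 2)) ^ n ≤ (p : ℝ) / 4 := by linarith
  have hpn : (n : ℝ) + 1 ≤ p := by linarith
  have hpc : (n.factorial : ℝ) ^ 2 * (ρ * √n) ^ n < p := by linarith
  obtain ⟨w, hw⟩ : ∃ w : ℝ, w = ((p : ℝ) / 4) ^ ((n : ℝ)⁻¹) / 15 := ⟨_, rfl⟩
  have hw0 : 0 ≤ w := by rw [hw]; positivity
  have hwp : (15 * w) ^ n = (p : ℝ) / 4 := by
    rw [hw, mul_div_cancel₀ _ (by norm_num)]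
    exact Real.rpow_inv_natCast_pow (by positivity) (by omega)
  have hwN : 3 * (M₀.factorial : ℝ) + 2 ≤ w := by
    rw [← hwp] at hpa
    have := le_of_pow_le_pow_left₀ (by omega) (by positivity) hpa
    linarith
  have hw2 : 2 ≤ w := by linarith
  have hwn1 : w ^ n ≤ (p : ℝ) / 4 := by
    rw [← hwp]
    exact pow_le_pow_left₀ hw0 (by linarith) n
  have hwn : w ^ 2 * n < (p : ℝ) ^ 2 := by
    have h1 : w ^ 2 ≤ (p : ℝ) / 4 :=
      le_trans (pow_le_pow_right₀ (by linarith) (by omega)) hwn1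
    nlinarith
  have hfac : ∀ d, 2 * d ≤ n → d.factorial * ⌊ρ * w * √n⌋₊ ^ d < p := by
    intro d hd
    have hx1 : 1 ≤ ρ * w * √n := by
      have h1 : (1 : ℝ) ≤ √n := by
        rw [Real.one_le_sqrt]; exact_mod_cast hn1
      have h2 : (1 : ℝ) ≤ ρ * w := by nlinarith
      nlinarith
    have h1 : ((d.factorial * ⌊ρ * w * √n⌋₊ ^ d : ℕ) : ℝ) ≤
        (n.factorial : ℝ) * (ρ * w * √n) ^ d := by
      push_cast
      refine mul_le_mul ?_ (pow_le_pow_left₀ (by positivity)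
        (Nat.floor_le (by positivity)) d) (by positivity) (by positivity)
      exact_mod_cast Nat.factorial_le (by omega)
    have h2 : ((n.factorial : ℝ) * (ρ * w * √n) ^ d) ^ 2 < (p : ℝ) ^ 2 := by
      calc ((n.factorial : ℝ) * (ρ * w * √n) ^ d) ^ 2
          = (n.factorial : ℝ) ^ 2 * (ρ * w * √n) ^ (2 * d) := by rw [mul_pow, ← pow_mul]; ring
        _ ≤ (n.factorial : ℝ) ^ 2 * (ρ * w * √n) ^ n :=
            mul_le_mul_of_nonneg_left (pow_le_pow_right₀ hx1 hd) (by positivity)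
        _ = ((n.factorial : ℝ) ^ 2 * (ρ * √n) ^ n) * w ^ n := by
            rw [show ρ * w * √n = (ρ * √n) * w by ring, mul_pow]; ring
        _ ≤ ((n.factorial : ℝ) ^ 2 * (ρ * √n) ^ n) * ((p : ℝ) / 4) :=
            mul_le_mul_of_nonneg_left hwn1 hb0
        _ < (p : ℝ) ^ 2 := by nlinarith
    have h3 : (n.factorial : ℝ) * (ρ * w * √n) ^ d < p :=
      lt_of_pow_lt_pow_left₀ 2 hp0.le h2
    exact_mod_cast lt_of_le_of_lt h1 h3
  obtain ⟨γ, hγ1, hγ2⟩ := exists_gamma hPe hR hM hS n M₀.factorial p w ρ hn hρ hw2 hwp hwn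
    (by nlinarith) hfac
  refine ⟨Lat n p ((w * √n)⁻¹) γ, ?_, ?_⟩
  · exact good_of hPI hK n p w ρ (8 * ρ ^ 2) hn1 (by linarith) hρ (by nlinarith) M₀ hM₀ γ hγ1 hγ2
  · intro s hs
    exact size_of hSz n p w hn1 hw2 hwp γ s hs

end Run7.h814.PFN.LAT
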