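import Mathlib
import Pool.Agent.Run7.h814.PFN.Iface

/-! Piece MOM of project PFN (helper344). -/

set_option autoImplicit false

namespace Run7.h814.PFN.MOM

open Run7.h814.PFN

open scoped Classical

/-- the pairing -/
def dot {d N : ℕ} (r α : Fin d → ZMod N) : ZMod N := ∑ j, r j * α j

theorem dot_add_left {d N : ℕ} (r s α : Fin d → ZMod N) : dot (r + s) α = dot r α + dot s α := by
  simp [dot, add_mul, Finset.sum_add_distrib]

theorem dot_add_right {d N : ℕ} (r α β : Fin d → ZMod N) : dot r (α + β) = dot r α + dot r β := by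
  simp [dot, mul_add, Finset.sum_add_distrib]

theorem dot_zero_left {d N : ℕ} (α : Fin d → ZMod N) : dot 0 α = 0 := by simp [dot]

theorem dot_zero_right {d N : ℕ} (r : Fin d → ZMod N) : dot r 0 = 0 := by simp [dot]

/-- for fixed `α` the character `r ↦ e(r · α)` -/
noncomputable def chL {d N : ℕ} [NeZero N] (α : Fin d → ZMod N) :
    AddChar (Fin d → ZMod N) ℂ where
  toFun r := ZMod.stdAddChar (dot r α)
  map_zero_eq_one' := by rw [dot_zero_left, AddChar.map_zero_eq_one]
  map_add_eq_mul' a b := by rw [dot_add_left, AddChar.map_add_eq_mul]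

/-- for fixed `r` the character `α ↦ e(r · α)` of a subgroup -/
noncomputable def chR {d N : ℕ} [NeZero N] (Γ : AddSubgroup (Fin d → ZMod N))
    (r : Fin d → ZMod N) : AddChar Γ ℂ where
  toFun α := ZMod.stdAddChar (dot r α)
  map_zero_eq_one' := by
    rw [AddSubgroup.coe_zero, dot_zero_right, AddChar.map_zero_eq_one]
  map_add_eq_mul' a b := by
    rw [AddSubgroup.coe_add, dot_add_right, AddChar.map_add_eq_mul]

theorem chL_eq_one {d N : ℕ} [NeZero N] (α : Fin d → ZMod N) : chL α = 0 ↔ α = 0 := by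
  constructor
  · intro h
    funext j
    have h1 : ZMod.stdAddChar (dot (Pi.single j 1) α) = (1 : ℂ) := by
      have := DFunLike.congr_fun h (Pi.single j 1)
      simpa [chL] using this
    have h2 : dot (Pi.single j 1) α = α j := by
      unfold dot
      rw [Finset.sum_eq_single j]
      · simp
      · intro b _ hb
        simp [hb]
      · simp
    rw [h2] at h1
    exact ZMod.injective_stdAddChar (by rw [h1, Pi.zero_apply, AddChar.map_zero_eq_one])
  · rintro rfl
    ext r
    simp [chL, dot_zero_right]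

theorem chR_eq_one {d N : ℕ} [NeZero N] (Γ : AddSubgroup (Fin d → ZMod N)) (r : Fin d → ZMod N) :
    chR Γ r = 0 ↔ ∀ α ∈ Γ, dot r α = 0 := by
  constructor
  · intro h α hα
    have h1 : ZMod.stdAddChar (dot r α) = (1 : ℂ) := by
      have := DFunLike.congr_fun h (⟨α, hα⟩ : Γ)
      simpa [chR] using this
    exact ZMod.injective_stdAddChar (by rw [h1, AddChar.map_zero_eq_one])
  · intro h
    ext α
    simp [chR, h α α.2]

/-- `|Γ^⊥| |Γ| = N ^ d` -/
theorem perp_card {d N : ℕ} [NeZero N] (Γ : AddSubgroup (Fin d → ZMod N)) :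
    ((Finset.univ.filter fun r : Fin d → ZMod N => ∀ α ∈ Γ, dot r α = 0).card : ℝ) *
      (Nat.card Γ : ℝ) = (N : ℝ) ^ d := by
  have h1 : ∑ r : Fin d → ZMod N, ∑ α : Γ, (chR Γ r α : ℂ) =
      ((Finset.univ.filter fun r : Fin d → ZMod N => ∀ α ∈ Γ, dot r α = 0).card : ℂ) *
        (Nat.card Γ : ℂ) := by
    rw [Finset.card_filter, Nat.cast_sum, Finset.sum_mul]
    refine Finset.sum_congr rfl fun r _ => ?_
    rw [AddChar.sum_eq_ite]
    by_cases h : ∀ α ∈ Γ, dot r α = 0
    · rw [if_pos ((chR_eq_one Γ r).2 h), if_pos h]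
      simp
    · rw [if_neg (fun h' => h ((chR_eq_one Γ r).1 h')), if_neg h]
      simp
  have h2 : ∑ r : Fin d → ZMod N, ∑ α : Γ, (chR Γ r α : ℂ) = (N : ℂ) ^ d := by
    rw [Finset.sum_comm]
    have h3 : ∀ α : Γ, ∑ r : Fin d → ZMod N, (chR Γ r α : ℂ) =
        if α = 0 then (N : ℂ) ^ d else 0 := by
      intro α
      have h4 : ∑ r : Fin d → ZMod N, (chR Γ r α : ℂ) = ∑ r, chL (α : Fin d → ZMod N) r := rfl
      rw [h4, AddChar.sum_eq_ite]
      by_cases h : α = 0
      · rw [if_pos ((chL_eq_one _).2 (by rw [h]; rfl)), if_pos h]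
        simp [ZMod.card]
      · rw [if_neg (fun h' => h (Subtype.ext ((chL_eq_one _).1 h'))), if_neg h]
    rw [Finset.sum_congr rfl fun α _ => h3 α, Finset.sum_ite_eq' Finset.univ (0 : Γ)]
    simp
  rw [h1] at h2
  exact_mod_cast h2

/-- multiples -/
theorem tors_card {d N : ℕ} [NeZero N] (s : ℕ) (hs : 0 < s) :
    (Finset.univ.filter fun α : Fin d → ZMod N => s • α = 0).card ≤ s ^ d := by
  have h1 : (Finset.univ.filter fun α : Fin d → ZMod N => s • α = 0) =
      Fintype.piFinset fun _ : Fin d => Finset.univ.filter fun x : ZMod N => s • x = 0 := by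
    ext α
    simp only [Finset.mem_filter, Finset.mem_univ, true_and, Fintype.mem_piFinset]
    exact ⟨fun h j => congrFun h j, fun h => funext h⟩
  rw [h1, Fintype.card_piFinset, Finset.prod_const, Finset.card_univ, Fintype.card_fin]
  exact Nat.pow_le_pow_left (IsAddCyclic.card_nsmul_eq_zero_le hs) d

theorem div_card {d N : ℕ} [NeZero N] (H : AddSubgroup (Fin d → ZMod N)) (s : ℕ) (hs : 0 < s) :
    (Finset.univ.filter fun α : Fin d → ZMod N => s • α ∈ H).card ≤ Nat.card H * s ^ d := by
  have h1 : ∀ h ∈ (Finset.univ.filter fun h : Fin d → ZMod N => h ∈ H),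
      ((Finset.univ.filter fun α : Fin d → ZMod N => s • α ∈ H).filter
        fun α => s • α = h).card ≤ s ^ d := by
    intro h _
    rcases Finset.eq_empty_or_nonempty ((Finset.univ.filter fun α : Fin d → ZMod N =>
      s • α ∈ H).filter fun α => s • α = h) with he | ⟨α₀, h0⟩
    · rw [he]; simp
    · refine le_trans (Finset.card_le_card_of_injOn (fun α => α - α₀) ?_ ?_) (tors_card s hs)
      · intro α hα
        simp only [Finset.coe_filter, Finset.mem_filter, Finset.mem_univ, true_and,
          Set.mem_ofPred_eq] at hα h0 ⊢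
        rw [smul_sub, hα.2, h0.2, sub_self]
      · intro a _ b _ hab
        exact sub_left_injective hab
  have h2 := Finset.card_le_mul_card_image_of_maps_to
    (s := Finset.univ.filter fun α : Fin d → ZMod N => s • α ∈ H)
    (t := Finset.univ.filter fun h : Fin d → ZMod N => h ∈ H) (f := fun α => s • α)
    (by
      intro α hα
      simp only [Finset.mem_filter, Finset.mem_univ, true_and] at hα ⊢
      exact hα) (s ^ d) h1
  have h3 : (Finset.univ.filter fun h : Fin d → ZMod N => h ∈ H).card = Nat.card H := by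
    rw [Nat.card_eq_fintype_card, Fintype.card_subtype]
  rw [h3] at h2
  rw [mul_comm]
  exact h2

theorem sum_sq (M : ℕ) : ∑ s ∈ Finset.Icc 1 M, (1 : ℝ) / (s : ℝ) ^ 2 ≤ 2 := by
  have h : ∀ M : ℕ, ∑ s ∈ Finset.Icc 1 (M + 1), (1 : ℝ) / (s : ℝ) ^ 2 ≤ 2 - 1 / (M + 1) := by
    intro M
    induction M with
    | zero => norm_num
    | succ M ih =>
      rw [Finset.sum_Icc_succ_top (by omega)]
      push_cast
      have h1 : 1 / ((M : ℝ) + 1 + 1) ^ 2 ≤ 1 / ((M : ℝ) + 1) - 1 / ((M : ℝ) + 1 + 1) := by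
        rw [div_sub_div _ _ (by positivity) (by positivity),
          div_le_div_iff₀ (by positivity) (by positivity)]
        have : (0 : ℝ) ≤ M := by positivity
        nlinarith
      linarith
  rcases M with _ | M
  · simp
  · exact (h M).trans (by linarith [show 0 ≤ 1 / ((M : ℝ) + 1) by positivity])

theorem card_sup {d N : ℕ} [NeZero N] (H : AddSubgroup (Fin d → ZMod N)) (α : Fin d → ZMod N) :
    Nat.card H * addOrderOf (α : (Fin d → ZMod N) ⧸ H) ≤
      Nat.card (H ⊔ AddSubgroup.zmultiples α : AddSubgroup (Fin d → ZMod N)) := by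
  set s := addOrderOf ((α : (Fin d → ZMod N) ⧸ H)) with hs
  let f : H × Fin s → (H ⊔ AddSubgroup.zmultiples α : AddSubgroup (Fin d → ZMod N)) := fun x =>
    ⟨x.1 + (x.2 : ℕ) • α, add_mem (AddSubgroup.mem_sup_left x.1.2)
      (AddSubgroup.mem_sup_right (nsmul_mem (AddSubgroup.mem_zmultiples α) _))⟩
  have hf : Function.Injective f := by
    rintro ⟨h, i⟩ ⟨h', j⟩ e
    have e1 : (h : Fin d → ZMod N) + (i : ℕ) • α = h' + (j : ℕ) • α := Subtype.ext_iff.1 e
    have e2 : (i : ℕ) • (α : (Fin d → ZMod N) ⧸ H) = (j : ℕ) • (α : (Fin d → ZMod N) ⧸ H) := by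
      have h1 := congrArg (QuotientAddGroup.mk' H) e1
      rw [map_add, map_add, map_nsmul, map_nsmul] at h1
      have h2 : QuotientAddGroup.mk' H (h : Fin d → ZMod N) = 0 :=
        (QuotientAddGroup.eq_zero_iff _).2 h.2
      have h3 : QuotientAddGroup.mk' H (h' : Fin d → ZMod N) = 0 :=
        (QuotientAddGroup.eq_zero_iff _).2 h'.2
      rw [h2, h3, zero_add, zero_add] at h1
      exact h1
    have e3 : (i : ℕ) = j := by
      have h1 := nsmul_eq_nsmul_iff_modEq.1 e2
      rw [← hs] at h1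
      exact Nat.ModEq.eq_of_lt_of_lt h1 i.2 j.2
    have e4 : i = j := Fin.ext e3
    subst e4
    have e5 : (h : Fin d → ZMod N) = h' := add_right_cancel e1
    exact Prod.ext (Subtype.ext e5) rfl
  have := Nat.card_le_card_of_injective f hf
  rw [Nat.card_prod, Nat.card_fin] at this
  exact this

theorem step {d N : ℕ} [NeZero N] (H : AddSubgroup (Fin d → ZMod N)) (b : ℕ) (hb : d + 2 ≤ b) :
    ∑ α : Fin d → ZMod N, (1 / (Nat.card (H ⊔ AddSubgroup.zmultiples α :
        AddSubgroup (Fin d → ZMod N)) : ℝ)) ^ b ≤ 2 * (1 / (Nat.card H : ℝ)) ^ (b - 1) := by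
  have hH : (0 : ℝ) < Nat.card H := by exact_mod_cast Nat.card_pos
  let s : (Fin d → ZMod N) → ℕ := fun α => addOrderOf (α : (Fin d → ZMod N) ⧸ H)
  have hs1 : ∀ α, s α ∈ Finset.Icc 1 N := by
    intro α
    have h1 : 0 < s α := addOrderOf_pos _
    have h2 : s α ∣ N := by
      apply addOrderOf_dvd_of_nsmul_eq_zero
      have h3 : N • α = 0 := by
        funext j
        simp
      have h4 : N • (α : (Fin d → ZMod N) ⧸ H) = ((N • α : Fin d → ZMod N) : _ ⧸ H) := rfl
      rw [h4, h3]
      rfl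
    exact Finset.mem_Icc.2 ⟨h1, Nat.le_of_dvd (Nat.pos_of_ne_zero (NeZero.ne N)) h2⟩
  have hs2 : ∀ α, s α • α ∈ H := by
    intro α
    rw [← QuotientAddGroup.eq_zero_iff]
    exact addOrderOf_nsmul_eq_zero (α : (Fin d → ZMod N) ⧸ H)
  calc ∑ α : Fin d → ZMod N, (1 / (Nat.card (H ⊔ AddSubgroup.zmultiples α :
        AddSubgroup (Fin d → ZMod N)) : ℝ)) ^ b
      ≤ ∑ α : Fin d → ZMod N, (1 / ((Nat.card H : ℝ) * s α)) ^ b := by
        refine Finset.sum_le_sum fun α _ => pow_le_pow_left₀ (by positivity) ?_ b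
        have h1 : (0 : ℝ) < s α := by
          have := Finset.mem_Icc.1 (hs1 α)
          exact_mod_cast (by omega : 0 < s α)
        refine one_div_le_one_div_of_le (by positivity) ?_
        exact_mod_cast card_sup H α
    _ = ∑ m ∈ Finset.Icc 1 N, ∑ α ∈ Finset.univ.filter (fun α : Fin d → ZMod N => s α = m),
          (1 / ((Nat.card H : ℝ) * s α)) ^ b :=
        (Finset.sum_fiberwise_of_maps_to (fun α _ => hs1 α) _).symm
    _ ≤ ∑ m ∈ Finset.Icc 1 N, (1 / (Nat.card H : ℝ)) ^ (b - 1) * (1 / (m : ℝ) ^ 2) := by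
        refine Finset.sum_le_sum fun m hm => ?_
        have hm1 : 1 ≤ m := (Finset.mem_Icc.1 hm).1
        have hm0 : (0 : ℝ) < m := by exact_mod_cast hm1
        have hm1' : (1 : ℝ) ≤ m := by exact_mod_cast hm1
        have e1 : ∑ α ∈ Finset.univ.filter (fun α : Fin d → ZMod N => s α = m),
            (1 / ((Nat.card H : ℝ) * s α)) ^ b =
            ((Finset.univ.filter (fun α : Fin d → ZMod N => s α = m)).card : ℝ) *
              (1 / ((Nat.card H : ℝ) * m)) ^ b := by
          rw [← nsmul_eq_mul, ← Finset.sum_const]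
          refine Finset.sum_congr rfl fun α hα => ?_
          rw [(Finset.mem_filter.1 hα).2]
        rw [e1]
        have e2 : ((Finset.univ.filter (fun α : Fin d → ZMod N => s α = m)).card : ℝ) ≤
            (Nat.card H : ℝ) * (m : ℝ) ^ d := by
          have h1 : (Finset.univ.filter (fun α : Fin d → ZMod N => s α = m)).card ≤
              Nat.card H * m ^ d := by
            refine le_trans (Finset.card_le_card ?_) (div_card H m hm1)
            intro α hα
            simp only [Finset.mem_filter, Finset.mem_univ, true_and] at hα ⊢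
            rw [← hα]
            exact hs2 α
          exact_mod_cast h1
        refine (mul_le_mul_of_nonneg_right e2 (by positivity)).trans ?_
        obtain ⟨c, rfl⟩ : ∃ c, b = c + 1 := ⟨b - 1, by omega⟩
        rw [Nat.add_sub_cancel]
        have e3 : (Nat.card H : ℝ) * (m : ℝ) ^ d * (1 / ((Nat.card H : ℝ) * m)) ^ (c + 1) =
            (1 / (Nat.card H : ℝ)) ^ c * ((m : ℝ) ^ d / (m : ℝ) ^ (c + 1)) := by
          rw [one_div, mul_inv, mul_pow, one_div, inv_pow, inv_pow, inv_pow, pow_succ (Nat.card H : ℝ)]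
          field_simp
        rw [e3]
        refine mul_le_mul_of_nonneg_left ?_ (by positivity)
        rw [div_le_div_iff₀ (by positivity) (by positivity), one_mul, ← pow_add]
        exact pow_le_pow_right₀ hm1' (by omega)
    _ = (1 / (Nat.card H : ℝ)) ^ (b - 1) * ∑ m ∈ Finset.Icc 1 N, (1 / (m : ℝ) ^ 2) := by
        rw [Finset.mul_sum]
    _ ≤ (1 / (Nat.card H : ℝ)) ^ (b - 1) * 2 :=
        mul_le_mul_of_nonneg_left (sum_sq N) (by positivity)
    _ = _ := mul_comm _ _

theorem Z_le {d N : ℕ} [NeZero N] (k : ℕ) : ∀ (a : ℕ), d + k + 1 ≤ a →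
    ∀ H : AddSubgroup (Fin d → ZMod N),
    ∑ α : Fin k → Fin d → ZMod N, (1 / (Nat.card (H ⊔ AddSubgroup.closure (Set.range α) :
      AddSubgroup (Fin d → ZMod N)) : ℝ)) ^ a ≤ 2 ^ k * (1 / (Nat.card H : ℝ)) ^ (a - k) := by
  induction k with
  | zero =>
    intro a _ H
    simp
  | succ k ih =>
    intro a ha H
    rw [← (Fin.consEquiv (fun _ : Fin (k + 1) => Fin d → ZMod N)).sum_comp, Fintype.sum_prod_type]
    have e1 : ∀ (α : Fin d → ZMod N) (β : Fin k → Fin d → ZMod N),
        H ⊔ AddSubgroup.closure (Set.range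
          ((Fin.consEquiv (fun _ : Fin (k + 1) => Fin d → ZMod N)) (α, β))) =
        (H ⊔ AddSubgroup.zmultiples α) ⊔ AddSubgroup.closure (Set.range β) := by
      intro α β
      have h1 : Set.range ((Fin.consEquiv (fun _ : Fin (k + 1) => Fin d → ZMod N)) (α, β)) =
          insert α (Set.range β) := Fin.range_cons α β
      rw [h1, Set.insert_eq, AddSubgroup.closure_union, AddSubgroup.zmultiples_eq_closure, sup_assoc]
    calc _ ≤ ∑ α : Fin d → ZMod N, 2 ^ k * (1 / (Nat.card (H ⊔ AddSubgroup.zmultiples α :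
            AddSubgroup (Fin d → ZMod N)) : ℝ)) ^ (a - k) := by
          refine Finset.sum_le_sum fun α _ => ?_
          refine le_trans (le_of_eq ?_) (ih a (by omega) (H ⊔ AddSubgroup.zmultiples α))
          refine Finset.sum_congr rfl fun β _ => ?_
          rw [e1]
      _ = 2 ^ k * ∑ α : Fin d → ZMod N, (1 / (Nat.card (H ⊔ AddSubgroup.zmultiples α :
            AddSubgroup (Fin d → ZMod N)) : ℝ)) ^ (a - k) := by rw [Finset.mul_sum]
      _ ≤ 2 ^ k * (2 * (1 / (Nat.card H : ℝ)) ^ (a - k - 1)) :=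
          mul_le_mul_of_nonneg_left (step H (a - k) (by omega)) (by positivity)
      _ = _ := by
          rw [show a - (k + 1) = a - k - 1 by omega, pow_succ]
          ring

theorem dot_closure {d N : ℕ} {k : ℕ} (α : Fin k → Fin d → ZMod N) (r : Fin d → ZMod N) :
    (∀ x ∈ AddSubgroup.closure (Set.range α), dot r x = 0) ↔ ∀ t, dot r (α t) = 0 := by
  constructor
  · intro h t
    exact h _ (AddSubgroup.subset_closure ⟨t, rfl⟩)
  · intro h x hx
    induction hx using AddSubgroup.closure_induction with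
    | mem x hx => obtain ⟨t, rfl⟩ := hx; exact h t
    | zero => exact dot_zero_right r
    | add a b _ _ ha hb => rw [dot_add_right, ha, hb, add_zero]
    | neg a _ ha =>
      have h1 : dot r (a + -a) = dot r a + dot r (-a) := dot_add_right r a (-a)
      rw [add_neg_cancel, dot_zero_right, ha, zero_add] at h1
      exact h1.symm

/-- the kernel of a matrix -/
noncomputable def K {n d N : ℕ} [NeZero N] (y : Fin d → Fin n → ZMod N) :
    Finset (Fin d → ZMod N) := Finset.univ.filter fun α => ∀ i, ∑ j, y j i * α j = 0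

theorem count_rows {n d N k : ℕ} [NeZero N] (α : Fin k → Fin d → ZMod N) :
    (Finset.univ.filter fun y : Fin d → Fin n → ZMod N => ∀ t, α t ∈ K y).card =
      (Finset.univ.filter fun r : Fin d → ZMod N => ∀ t, dot r (α t) = 0).card ^ n := by
  have h1 : (Finset.univ.filter fun r : Fin d → ZMod N => ∀ t, dot r (α t) = 0).card ^ n =
      (Fintype.piFinset fun _ : Fin n =>
        Finset.univ.filter fun r : Fin d → ZMod N => ∀ t, dot r (α t) = 0).card := by
    rw [Fintype.card_piFinset, Finset.prod_const, Finset.card_univ, Fintype.card_fin]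
  rw [h1]
  refine Finset.card_bij (fun y _ => fun i j => y j i) ?_ ?_ ?_
  · intro y hy
    rw [Fintype.mem_piFinset]
    intro i
    simp only [Finset.mem_filter, Finset.mem_univ, true_and, K] at hy ⊢
    intro t
    exact hy t i
  · intro y _ y' _ h
    funext j i
    exact congrFun (congrFun h i) j
  · intro z hz
    refine ⟨fun j i => z i j, ?_, rfl⟩
    rw [Fintype.mem_piFinset] at hz
    simp only [Finset.mem_filter, Finset.mem_univ, true_and, K] at hz ⊢
    intro t i
    exact hz i t

theorem moment {n d N k : ℕ} [NeZero N] (hn : d + k + 1 ≤ n) :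
    ∑ y : Fin d → Fin n → ZMod N, ((K y).card : ℝ) ^ k ≤ 2 ^ k * (N : ℝ) ^ (n * d) := by
  have h3 : ∀ y : Fin d → Fin n → ZMod N, ((K y).card : ℝ) ^ k =
      ∑ α : Fin k → Fin d → ZMod N, if (∀ t, α t ∈ K y) then (1 : ℝ) else 0 := by
    intro y
    have h1 : (K y).card ^ k = (Fintype.piFinset fun _ : Fin k => K y).card := by
      rw [Fintype.card_piFinset, Finset.prod_const, Finset.card_univ, Fintype.card_fin]
    have h2 : (Fintype.piFinset fun _ : Fin k => K y) =
        Finset.univ.filter fun α : Fin k → Fin d → ZMod N => ∀ t, α t ∈ K y := by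
      ext α
      simp [Fintype.mem_piFinset]
    rw [Finset.sum_ite, Finset.sum_const_zero, add_zero, Finset.sum_const, nsmul_eq_mul, mul_one,
      ← h2, ← h1, Nat.cast_pow]
  rw [Finset.sum_congr rfl fun y _ => h3 y, Finset.sum_comm]
  have h4 : ∀ α : Fin k → Fin d → ZMod N,
      (∑ y : Fin d → Fin n → ZMod N, if (∀ t, α t ∈ K y) then (1 : ℝ) else 0) =
      (N : ℝ) ^ (n * d) * (1 / (Nat.card ((⊥ : AddSubgroup (Fin d → ZMod N)) ⊔
        AddSubgroup.closure (Set.range α) : AddSubgroup (Fin d → ZMod N)) : ℝ)) ^ n := by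
    intro α
    rw [Finset.sum_ite, Finset.sum_const_zero, add_zero, Finset.sum_const, nsmul_eq_mul, mul_one,
      count_rows, bot_sup_eq]
    have h5 := perp_card (AddSubgroup.closure (Set.range α))
    simp only [dot_closure] at h5
    have h6 : (0 : ℝ) < Nat.card (AddSubgroup.closure (Set.range α)) := by
      exact_mod_cast Nat.card_pos
    have h7 : ((Finset.univ.filter fun r : Fin d → ZMod N => ∀ t, dot r (α t) = 0).card : ℝ) =
        (N : ℝ) ^ d * (1 / (Nat.card (AddSubgroup.closure (Set.range α)) : ℝ)) := by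
      rw [← h5]
      field_simp
    rw [Nat.cast_pow, h7, mul_pow, ← pow_mul, mul_comm d n]
  rw [Finset.sum_congr rfl fun α _ => h4 α, ← Finset.mul_sum, mul_comm (2 ^ k : ℝ)]
  refine mul_le_mul_of_nonneg_left ?_ (by positivity)
  have h8 := Z_le (d := d) (N := N) k n hn ⊥
  simpa using h8

theorem t : S_MOM := by
  intro n d k N hN hn Q hQ
  have hK : ∀ y : Fin d → Fin n → ZMod N,
      Nat.card {α : Fin d → ZMod N // ∀ i, ∑ j, y j i * α j = 0} = (K y).card := by
    intro y
    rw [Nat.card_eq_fintype_card, Fintype.card_subtype]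
    rfl
  simp only [hK]
  have h1 : Nat.card {y : Fin d → Fin n → ZMod N // Q < ((K y).card : ℝ)} =
      (Finset.univ.filter fun y : Fin d → Fin n → ZMod N => Q < ((K y).card : ℝ)).card := by
    rw [Nat.card_eq_fintype_card, Fintype.card_subtype]
  rw [h1]
  calc ((Finset.univ.filter fun y : Fin d → Fin n → ZMod N => Q < ((K y).card : ℝ)).card : ℝ) *
        Q ^ k = ∑ _y ∈ Finset.univ.filter
          (fun y : Fin d → Fin n → ZMod N => Q < ((K y).card : ℝ)), Q ^ k := by
        rw [Finset.sum_const, nsmul_eq_mul]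
    _ ≤ ∑ y ∈ Finset.univ.filter
          (fun y : Fin d → Fin n → ZMod N => Q < ((K y).card : ℝ)), ((K y).card : ℝ) ^ k := by
        refine Finset.sum_le_sum fun y hy => ?_
        exact pow_le_pow_left₀ hQ.le (Finset.mem_filter.1 hy).2.le k
    _ ≤ ∑ y : Fin d → Fin n → ZMod N, ((K y).card : ℝ) ^ k :=
        Finset.sum_le_sum_of_subset_of_nonneg (Finset.filter_subset _ _)
          fun _ _ _ => by positivity
    _ ≤ _ := moment hn

end Run7.h814.PFN.MOM
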