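import Pool.Agent.Run7.h814.PFN.Iface

set_option autoImplicit false
open scoped Pointwise

/-! Piece PERP of the project PFN. -/

namespace Run7.h814.PFN.PERP

open Module

/-- a nonzero minor -/
theorem exists_minor {d n : ℕ} (A : Matrix (Fin d) (Fin n) ℝ) (h : LinearIndependent ℝ A.row) :
    ∃ e : Fin d → Fin n, Function.Injective e ∧ (A.submatrix id e).det ≠ 0 := by
  have hr : A.rank = d := by rw [h.rank_matrix, Fintype.card_fin]
  obtain ⟨κ, a, ha, hspan, hli⟩ := exists_linearIndependent' ℝ A.col
  have : Finite κ := Finite.of_injective a ha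
  let _ : Fintype κ := Fintype.ofFinite κ
  have hc : Fintype.card κ = d := by
    rw [← finrank_span_eq_card hli, hspan, ← Matrix.rank_eq_finrank_span_cols, hr]
  let f : Fin d ≃ κ := (Fintype.equivFinOfCardEq hc).symm
  refine ⟨a ∘ f, ha.comp f.injective, ?_⟩
  have h1 : LinearIndependent ℝ (A.submatrix id (a ∘ f)).col := by
    have : (A.submatrix id (a ∘ f)).col = (A.col ∘ a) ∘ f := by
      funext j
      rfl
    rw [this]
    exact hli.comp f f.injective
  rw [Matrix.linearIndependent_cols_iff_isUnit, Matrix.isUnit_iff_isUnit_det] at h1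
  exact h1.ne_zero

theorem t : S_PERP := by
  classical
  intro n d p M _ y hli hM hp
  have hpp : Nat.Prime p := Fact.out
  let A : Matrix (Fin d) (Fin n) ℤ := y
  obtain ⟨e, he, hdet⟩ := exists_minor (A.map (Int.cast : ℤ → ℝ)) hli
  set D : ℤ := (A.submatrix id e).det with hD
  have hD0 : D ≠ 0 := by
    intro h
    apply hdet
    have h1 : (A.map (Int.cast : ℤ → ℝ)).submatrix id e = (A.submatrix id e).map (Int.cast : ℤ → ℝ) := rfl
    rw [h1]
    have h2 := (Int.castRingHom ℝ).map_det (A.submatrix id e)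
    rw [← hD, h, map_zero] at h2
    exact h2.symm
  have hDb : |D| < p := by
    have h1 := Matrix.det_le (A := A.submatrix id e) (abv := IsAbsoluteValue.toAbsoluteValue
      (abs : ℤ → ℤ)) (x := (M : ℤ)) (fun i j => hM i (e j))
    rw [Fintype.card_fin] at h1
    refine lt_of_le_of_lt h1 ?_
    rw [nsmul_eq_mul]
    exact_mod_cast hp
  have hDp : (D : ZMod p) ≠ 0 := by
    intro h
    rw [ZMod.intCast_zmod_eq_zero_iff_dvd] at h
    exact hD0 (Int.eq_zero_of_abs_lt_dvd h hDb)
  let Ap : Matrix (Fin d) (Fin n) (ZMod p) := A.map (Int.cast : ℤ → ZMod p)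
  have hdetp : (Ap.submatrix id e).det ≠ 0 := by
    have h1 : Ap.submatrix id e = (A.submatrix id e).map (Int.cast : ℤ → ZMod p) := rfl
    rw [h1]
    have h2 := (Int.castRingHom (ZMod p)).map_det (A.submatrix id e)
    rw [← hD] at h2
    intro h3
    apply hDp
    exact h2.trans h3
  let f : (Fin n → ZMod p) →ₗ[ZMod p] (Fin d → ZMod p) := Ap.mulVecLin
  have hf : Function.Surjective f := by
    intro w
    obtain ⟨v, hv⟩ : ∃ v, (Ap.submatrix id e).mulVec v = w := by
      refine ⟨(Ap.submatrix id e)⁻¹.mulVec w, ?_⟩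
      rw [Matrix.mulVec_mulVec, Matrix.mul_nonsing_inv _ (isUnit_iff_ne_zero.2 hdetp),
        Matrix.one_mulVec]
    refine ⟨Function.extend e v 0, ?_⟩
    rw [← hv]
    funext j
    show ∑ i, Ap j i * Function.extend e v 0 i = ∑ i, Ap j (e i) * v i
    symm
    apply Fintype.sum_of_injective e he
    · intro i hi
      rw [Function.extend_apply' _ _ _ (by simpa using hi)]
      exact mul_zero _
    · intro i
      rw [he.extend_apply]
  have h1 : Nat.card {γ : Fin n → ZMod p // ∀ j, ∑ i, γ i * (y j i : ZMod p) = 0} =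
      Nat.card (LinearMap.ker f) := by
    apply Nat.card_congr
    apply Equiv.subtypeEquivRight
    intro γ
    rw [LinearMap.mem_ker, funext_iff]
    apply forall_congr'
    intro j
    have : f γ j = ∑ i, γ i * (y j i : ZMod p) := by
      show ∑ i, (y j i : ZMod p) * γ i = _
      exact Finset.sum_congr rfl fun i _ => mul_comm _ _
    rw [this]
    rfl
  rw [h1]
  have h2 := LinearMap.finrank_range_add_finrank_ker f
  rw [LinearMap.range_eq_top.2 hf, finrank_top, Module.finrank_fin_fun, Module.finrank_fin_fun] at h2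
  have h3 : Nat.card (LinearMap.ker f) = p ^ finrank (ZMod p) (LinearMap.ker f) := by
    have := Module.natCard_eq_pow_finrank (K := ZMod p) (V := LinearMap.ker f)
    rw [this, Nat.card_zmod]
  rw [h3, ← pow_add]
  apply le_of_eq
  congr 1
  omega

end Run7.h814.PFN.PERP
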