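import Pool.Agent.Run7.h814.PFN.Iface
import Pool.Agent.R934.LB.Pack

set_option autoImplicit false
open scoped Pointwise

/-! Piece PIDX of the project PFN. -/

namespace Run7.h814.PFN.PIDX

open Module

theorem t : S_PIDX := by
  classical
  intro n d M₀ ρ L hρ hL y hy hM z hz hzs
  obtain ⟨τ, hτ⟩ := (Submodule.mem_span_range_iff_exists_fun ℝ).1 hzs
  let x : ℕ → E n := fun k => k • z - ∑ j, ⌊(k : ℝ) * τ j⌋ • y j
  have hxs : ∀ k, x k = ∑ j, Int.fract ((k : ℝ) * τ j) • y j := by
    intro k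
    simp only [x]
    rw [← hτ, Finset.smul_sum, ← Finset.sum_sub_distrib]
    apply Finset.sum_congr rfl
    intro j _
    rw [← Nat.cast_smul_eq_nsmul ℝ, ← Int.cast_smul_eq_zsmul ℝ, smul_smul, ← sub_smul]
    rfl
  have hxL : ∀ k, x k ∈ L := fun k =>
    L.sub_mem (L.nsmul_mem hz k) (L.sum_mem fun j _ => L.zsmul_mem (hy j).1 _)
  have hxn : ∀ k, ‖x k‖ ≤ d * ρ := by
    intro k
    rw [hxs]
    refine (norm_sum_le _ _).trans ?_
    have : ∀ j ∈ (Finset.univ : Finset (Fin d)), ‖Int.fract ((k : ℝ) * τ j) • y j‖ ≤ ρ := by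
      intro j _
      rw [norm_smul, Real.norm_of_nonneg (Int.fract_nonneg _)]
      calc Int.fract ((k : ℝ) * τ j) * ‖y j‖ ≤ 1 * ρ :=
            mul_le_mul (Int.fract_lt_one _).le (hy j).2 (norm_nonneg _) zero_le_one
        _ = ρ := one_mul _
    refine (Finset.sum_le_card_nsmul _ _ _ this).trans (le_of_eq ?_)
    rw [Finset.card_univ, Fintype.card_fin, nsmul_eq_mul]
  have key := Pool.Agent.R934.LB.card_le_sep ((Finset.range (M₀ + 1)).image x) (d * ρ)
    (by positivity) (by
      intro c hc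
      obtain ⟨k, -, rfl⟩ := Finset.mem_image.1 hc
      exact hxn k) (by
      intro c hc e he hce
      obtain ⟨k, -, rfl⟩ := Finset.mem_image.1 hc
      obtain ⟨l, -, rfl⟩ := Finset.mem_image.1 he
      exact hL _ (L.sub_mem (hxL k) (hxL l)) (sub_ne_zero.2 hce))
  rw [finrank_euclideanSpace_fin] at key
  have hlt : ((Finset.range (M₀ + 1)).image x).card < (Finset.range (M₀ + 1)).card := by
    rw [Finset.card_range]
    have : (((Finset.range (M₀ + 1)).image x).card : ℝ) ≤ M₀ := key.trans hM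
    have : ((Finset.range (M₀ + 1)).image x).card ≤ M₀ := by exact_mod_cast this
    omega
  obtain ⟨k, hk, l, hl, hkl, hx⟩ := Finset.exists_ne_map_eq_of_card_lt_of_maps_to hlt
    (fun a ha => Finset.mem_coe.2 (Finset.mem_image_of_mem x (Finset.mem_coe.1 ha)))
  have main : ∀ k l : ℕ, k < l → l ≤ M₀ → x k = x l →
      M₀.factorial • z ∈ AddSubgroup.closure (Set.range y) := by
    intro k l hkl hl hx
    have h1 : (l - k) • z ∈ AddSubgroup.closure (Set.range y) := by
      have h2 : (l - k) • z = ∑ j, (⌊(l : ℝ) * τ j⌋ - ⌊(k : ℝ) * τ j⌋) • y j := by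
        simp only [x] at hx
        have h3 : (l - k) • z = l • z - k • z := by
          rw [eq_sub_iff_add_eq, ← add_nsmul, Nat.sub_add_cancel hkl.le]
        rw [h3]
        simp only [sub_smul, Finset.sum_sub_distrib]
        rw [sub_eq_sub_iff_add_eq_add] at hx ⊢
        rw [← hx, add_comm]
      rw [h2]
      exact AddSubgroup.sum_mem _ fun j _ =>
        AddSubgroup.zsmul_mem _ (AddSubgroup.subset_closure (Set.mem_range_self j)) _
    obtain ⟨c, hc⟩ := Nat.dvd_factorial (show 0 < l - k by omega) (show l - k ≤ M₀ by omega)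
    rw [hc, mul_comm, mul_nsmul']
    exact AddSubgroup.nsmul_mem _ h1 _
  rw [Finset.mem_range] at hk hl
  rcases lt_or_gt_of_ne hkl with h | h
  · exact main k l h (by omega) hx
  · exact main l k h (by omega) hx.symm

end Run7.h814.PFN.PIDX
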