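import Mathlib
import Pool.Agent.Run7.h814.PFN.Iface
import Pool.Agent.R934.LB.Count

/-! Piece RES of project PFN (helper344). -/

set_option autoImplicit false

namespace Run7.h814.PFN.RES

open Run7.h814.PFN

/-- triangle inequality for the floor of a division -/
theorem div_norm {n : ℕ} (N : ℕ) (hN : 0 < N) (y : Fin n → ℤ) (r : ℝ) (hr : 0 ≤ r)
    (h : ∑ i, (y i : ℝ) ^ 2 ≤ r ^ 2 * n) :
    ∑ i, ((y i / (N : ℤ) : ℤ) : ℝ) ^ 2 ≤ (r / N + 1) ^ 2 * n := by
  have hN0 : (0 : ℝ) < N := by exact_mod_cast hN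
  -- the two vectors
  let a : EuclideanSpace ℝ (Fin n) := WithLp.toLp 2 (fun i => (y i : ℝ) / N)
  let b : EuclideanSpace ℝ (Fin n) := WithLp.toLp 2 (fun i => ((y i % (N : ℤ) : ℤ) : ℝ) / N)
  have hab : ∀ i, ((y i / (N : ℤ) : ℤ) : ℝ) = a i - b i := by
    intro i
    have h1 : (N : ℤ) * (y i / (N : ℤ)) + y i % (N : ℤ) = y i := Int.mul_ediv_add_emod _ _
    have h2 : (N : ℝ) * ((y i / (N : ℤ) : ℤ) : ℝ) + ((y i % (N : ℤ) : ℤ) : ℝ) = (y i : ℝ) := by
      exact_mod_cast h1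
    change _ = (y i : ℝ) / N - ((y i % (N : ℤ) : ℤ) : ℝ) / N
    field_simp
    linarith
  have hna : ‖a‖ ≤ r / N * Real.sqrt n := by
    rw [EuclideanSpace.norm_eq]
    have : r / N * Real.sqrt n = Real.sqrt ((r / N) ^ 2 * n) := by
      rw [Real.sqrt_mul (sq_nonneg _), Real.sqrt_sq (by positivity)]
    rw [this]
    apply Real.sqrt_le_sqrt
    have h3 : ∑ i, ‖a i‖ ^ 2 = (∑ i, (y i : ℝ) ^ 2) / N ^ 2 := by
      rw [Finset.sum_div]
      refine Finset.sum_congr rfl fun i _ => ?_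
      change ‖(y i : ℝ) / N‖ ^ 2 = _
      rw [Real.norm_eq_abs, sq_abs, div_pow]
    rw [h3, div_pow, div_mul_eq_mul_div]
    exact div_le_div_of_nonneg_right h (by positivity)
  have hnb : ‖b‖ ≤ Real.sqrt n := by
    rw [EuclideanSpace.norm_eq]
    apply Real.sqrt_le_sqrt
    calc ∑ i, ‖b i‖ ^ 2 ≤ ∑ _i : Fin n, (1 : ℝ) := by
          refine Finset.sum_le_sum fun i _ => ?_
          change ‖((y i % (N : ℤ) : ℤ) : ℝ) / N‖ ^ 2 ≤ 1
          have h1 : 0 ≤ y i % (N : ℤ) := Int.emod_nonneg _ (by omega)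
          have h2 : y i % (N : ℤ) < N := Int.emod_lt_of_pos _ (by omega)
          have h1' : (0 : ℝ) ≤ ((y i % (N : ℤ) : ℤ) : ℝ) := by exact_mod_cast h1
          have h2' : ((y i % (N : ℤ) : ℤ) : ℝ) ≤ N := by exact_mod_cast h2.le
          have h3 : ((y i % (N : ℤ) : ℤ) : ℝ) / N ≤ 1 := (div_le_one hN0).2 h2'
          have h4 : 0 ≤ ((y i % (N : ℤ) : ℤ) : ℝ) / N := by positivity
          rw [Real.norm_eq_abs, sq_abs]
          nlinarith
      _ = n := by simp
  have hn : ‖a - b‖ ≤ (r / N + 1) * Real.sqrt n := by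
    calc ‖a - b‖ ≤ ‖a‖ + ‖b‖ := norm_sub_le _ _
      _ ≤ r / N * Real.sqrt n + Real.sqrt n := add_le_add hna hnb
      _ = _ := by ring
  have h5 : ‖a - b‖ ^ 2 = ∑ i, ((y i / (N : ℤ) : ℤ) : ℝ) ^ 2 := by
    rw [EuclideanSpace.norm_sq_eq]
    refine Finset.sum_congr rfl fun i _ => ?_
    rw [hab i]
    change ‖a i - b i‖ ^ 2 = _
    rw [Real.norm_eq_abs, sq_abs]
  rw [← h5]
  calc ‖a - b‖ ^ 2 ≤ ((r / N + 1) * Real.sqrt n) ^ 2 :=
        pow_le_pow_left₀ (norm_nonneg _) hn 2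
    _ = (r / N + 1) ^ 2 * n := by rw [mul_pow, Real.sq_sqrt (by positivity)]

theorem t : S_RES := by
  intro n d N r hN hr P F hF
  classical
  have hNp : 0 < N := Nat.pos_of_ne_zero (NeZero.ne N)
  have hN0 : (0 : ℝ) < N := by exact_mod_cast hNp
  have hr0 : 0 ≤ r := by linarith
  let U : Fin d → Finset (Fin n → ℤ) := fun j => F.image fun y => fun i => y j i / (N : ℤ)
  have hU : ∀ j, ((U j).card : ℝ) ≤ (15 * r / N) ^ n := by
    intro j
    have h1 := Pool.Agent.R934.LB.count_le (n := n) (r / N + 1) (by positivity) (U j) (by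
      intro z hz
      obtain ⟨y, hy, rfl⟩ := Finset.mem_image.1 hz
      have := div_norm N hNp (y j) r hr0 ((hF y hy).1 j)
      unfold Pool.Agent.R934.LB.sq
      push_cast at this ⊢
      exact this)
    refine h1.trans (pow_le_pow_left₀ (by positivity) ?_ n)
    have h3 : 3 ≤ r / N := (le_div_iff₀ hN0).2 hr
    have h4 : 15 * r / N = 15 * (r / N) := by ring
    rw [h4]
    linarith
  let f : F → (Fintype.piFinset U) × {v // P v} := fun y =>
    (⟨fun j i => y.1 j i / (N : ℤ), by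
      rw [Fintype.mem_piFinset]
      intro j
      exact Finset.mem_image.2 ⟨y.1, y.2, rfl⟩⟩,
     ⟨fun j i => ((y.1 j i : ℤ) : ZMod N), (hF y.1 y.2).2⟩)
  have hf : Function.Injective f := by
    intro y y' h
    have h1 : ∀ j i, y.1 j i / (N : ℤ) = y'.1 j i / (N : ℤ) := fun j i =>
      congrFun (congrFun (Subtype.ext_iff.1 (Prod.ext_iff.1 h).1) j) i
    have h2 : ∀ j i, ((y.1 j i : ℤ) : ZMod N) = ((y'.1 j i : ℤ) : ZMod N) := fun j i =>
      congrFun (congrFun (Subtype.ext_iff.1 (Prod.ext_iff.1 h).2) j) i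
    apply Subtype.ext
    funext j i
    have h3 : y.1 j i % (N : ℤ) = y'.1 j i % (N : ℤ) :=
      (ZMod.intCast_eq_intCast_iff' _ _ N).1 (h2 j i)
    rw [← Int.mul_ediv_add_emod (y.1 j i) N, ← Int.mul_ediv_add_emod (y'.1 j i) N, h1 j i, h3]
  have h1 : F.card ≤ (Fintype.piFinset U).card * Nat.card {v // P v} := by
    have := Nat.card_le_card_of_injective f hf
    rw [Nat.card_prod, Nat.card_eq_fintype_card (α := F), Fintype.card_coe,
      Nat.card_eq_fintype_card (α := Fintype.piFinset U), Fintype.card_coe] at this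
    exact this
  have h2 : ((Fintype.piFinset U).card : ℝ) ≤ (15 * r / N) ^ (n * d) := by
    rw [Fintype.card_piFinset, Nat.cast_prod]
    calc ∏ j, ((U j).card : ℝ) ≤ ∏ _j : Fin d, (15 * r / N) ^ n :=
          Finset.prod_le_prod (fun _ _ => by positivity) fun j _ => hU j
      _ = (15 * r / N) ^ (n * d) := by
          rw [Finset.prod_const, Finset.card_univ, Fintype.card_fin, ← pow_mul]
  calc (F.card : ℝ) ≤ ((Fintype.piFinset U).card : ℝ) * (Nat.card {v // P v} : ℝ) := by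
        exact_mod_cast h1
    _ ≤ _ := mul_le_mul_of_nonneg_right h2 (by positivity)

end Run7.h814.PFN.RES
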