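import Pool.Agent.Run7.h814.PFN.Iface
import Pool.Agent.R934.LB.Pack

set_option autoImplicit false
open scoped Pointwise

/-! Piece SEC of the project PFN. -/

namespace Run7.h814.PFN.SEC

open Module

/-- packing in a subspace -/
theorem pack {n : ℕ} (S : Finset (E n)) (ρ : ℝ) (hρ : 0 ≤ ρ) (Y : Set (E n)) (hY : Y.Finite)
    (h1 : ∀ x ∈ Y, ∀ y ∈ Y, x - y ∈ AddSubgroup.closure (S : Set (E n)))
    (h2 : ∀ x ∈ Y, ∀ y ∈ Y, ‖x - y‖ ≤ ρ)
    (h3 : ∀ x ∈ Y, ∀ y ∈ Y, x ≠ y → 1 ≤ ‖x - y‖) :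
    (Y.ncard : ℝ) ≤ (2 * ρ + 1) ^ S.card := by
  classical
  rcases Y.eq_empty_or_nonempty with rfl | ⟨x₀, hx₀⟩
  · simp only [Set.ncard_empty, Nat.cast_zero]
    positivity
  set W : Submodule ℝ (E n) := Submodule.span ℝ (S : Set (E n)) with hW
  have hcl : ∀ v ∈ AddSubgroup.closure (S : Set (E n)), v ∈ W := by
    intro v hv
    have : AddSubgroup.closure (S : Set (E n)) ≤ W.toAddSubgroup := by
      rw [AddSubgroup.closure_le]
      exact Submodule.subset_span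
    exact this hv
  let f : {y // y ∈ hY.toFinset} → W := fun y =>
    ⟨y.1 - x₀, hcl _ (h1 _ (hY.mem_toFinset.1 y.2) _ hx₀)⟩
  have hf : Function.Injective f := by
    intro a b h
    have h' := congrArg Subtype.val h
    simp only [f] at h'
    exact Subtype.ext (sub_left_injective h')
  set s : Finset W := (Finset.univ : Finset {y // y ∈ hY.toFinset}).image f with hs
  have hcard : s.card = Y.ncard := by
    rw [hs, Finset.card_image_of_injective _ hf, Finset.card_univ, Fintype.card_coe,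
      Set.ncard_eq_toFinset_card Y hY]
  have key := Pool.Agent.R934.LB.card_le_sep s ρ hρ (by
    intro c hc
    rw [hs, Finset.mem_image] at hc
    obtain ⟨y, -, rfl⟩ := hc
    exact h2 _ (hY.mem_toFinset.1 y.2) _ hx₀) (by
    intro c hc d hd hcd
    rw [hs, Finset.mem_image] at hc hd
    obtain ⟨y, -, rfl⟩ := hc
    obtain ⟨z, -, rfl⟩ := hd
    have hyz : y.1 ≠ z.1 := fun h => hcd (by rw [Subtype.ext h])
    have := h3 _ (hY.mem_toFinset.1 y.2) _ (hY.mem_toFinset.1 z.2) hyz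
    have e : ‖f y - f z‖ = ‖y.1 - z.1‖ := by
      show ‖(y.1 - x₀) - (z.1 - x₀)‖ = _
      congr 1
      abel
    rw [e]
    exact this)
  rw [← hcard]
  refine key.trans ?_
  apply pow_le_pow_right₀ (by linarith)
  exact finrank_span_finset_le_card S

/-- differences of sums -/
theorem diff_mem {n : ℕ} {m : ℕ} {Y : Set (E n)} (K : AddSubgroup (E n))
    (h : ∀ x ∈ Y, ∀ y ∈ Y, x - y ∈ K) {a b : E n} (ha : a ∈ sums m Y) (hb : b ∈ sums m Y) :
    a - b ∈ K := by
  obtain ⟨f, hf, rfl⟩ := ha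
  obtain ⟨g, hg, rfl⟩ := hb
  rw [← Finset.sum_sub_distrib]
  exact K.sum_mem fun i _ => h _ (hf i) _ (hg i)

theorem sums_finite {n : ℕ} (m : ℕ) {Y : Set (E n)} (hY : Y.Finite) : (sums m Y).Finite := by
  have : sums m Y = (fun f : Fin m → E n => ∑ i, f i) '' (Set.univ.pi fun _ => Y) := by
    ext x
    constructor
    · rintro ⟨f, hf, rfl⟩
      exact ⟨f, fun i _ => hf i, rfl⟩
    · rintro ⟨f, hf, rfl⟩
      exact ⟨f, fun i => hf i (Set.mem_univ i), rfl⟩
  rw [this]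
  exact (Set.Finite.pi' fun _ => hY).image _ |>.subset (by
    apply Set.image_mono
    intro f hf i
    exact hf i (Set.mem_univ i))

theorem sums_nonempty {n : ℕ} (m : ℕ) {Y : Set (E n)} (hY : Y.Nonempty) : (sums m Y).Nonempty := by
  obtain ⟨y, hy⟩ := hY
  exact ⟨_, fun _ => y, fun _ => hy, rfl⟩

/-- number of the sums -/
theorem card_sums (hC : S_COSET) {n : ℕ} (L : AddSubgroup (E n)) (ρ Q : ℝ) (hG : Good n L ρ Q)
    (Y : Set (E n)) (hY : Y.Finite) (hne : Y.Nonempty)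
    (hL : ∀ x ∈ Y, ∀ y ∈ Y, x - y ∈ L ∧ ‖x - y‖ ≤ ρ)
    (hr : 2 * finrank ℝ (Submodule.span ℝ (Y - Y)) ≤ n) (m h : ℕ) (hm : 1 ≤ m)
    (hmh : m ^ 2 < 2 ^ h) :
    ((sums m Y).ncard : ℝ) ≤ Q * (1 + n * (2 * m + 1) ^ 2) ^ (2 ^ h) := by
  classical
  obtain ⟨d, y, hd, hli, hyY, hspan, hZ⟩ := hC n Y hY hne
  rw [← hd] at hr
  set H := AddSubgroup.closure (Set.range y) with hH
  let π : E n → E n ⧸ H := fun x => QuotientAddGroup.mk x
  have hπ : ∀ a b : E n, π a = π b ↔ a - b ∈ H := by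
    intro a b
    rw [eq_comm]
    show (QuotientAddGroup.mk b : E n ⧸ H) = QuotientAddGroup.mk a ↔ _
    rw [QuotientAddGroup.eq, neg_add_eq_sub]
  have hXf := sums_finite m hY
  obtain ⟨x₀, hx₀⟩ := sums_nonempty m hne
  obtain ⟨Z₀, hZ₀, hbij⟩ := Set.SurjOn.exists_bijOn_subset (Set.surjOn_image π (sums m Y))
  have hZ₀f : Z₀.Finite := hXf.subset hZ₀
  set Z : Set (E n) := (fun z => z - x₀) '' Z₀ with hZdef
  have hZc : Z.ncard = Z₀.ncard := Set.ncard_image_of_injective _ sub_left_injective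
  have h1 : (Z.ncard : ℝ) ≤ Q := by
    refine hG.index d y hr hli ?_ Z (hZ₀f.image _) ?_ ?_
    · intro j
      obtain ⟨a, ha, b, hb, hab⟩ := hyY j
      have : y j = a - b := hab.symm
      rw [this]
      exact hL a ha b hb
    · rintro _ ⟨z, hz, rfl⟩
      refine ⟨diff_mem L (fun a ha b hb => (hL a ha b hb).1) (hZ₀ hz) hx₀, ?_⟩
      exact diff_mem (Submodule.span ℝ (Set.range y)).toAddSubgroup
        (fun a ha b hb => hspan _ (Set.sub_mem_sub ha hb)) (hZ₀ hz) hx₀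
    · rintro _ ⟨z, hz, rfl⟩ _ ⟨z', hz', rfl⟩ hzz
      have h5 : z - x₀ - (z' - x₀) = z - z' := by abel
      simp only [h5] at hzz
      have := hbij.injOn hz hz' ((hπ z z').2 hzz)
      rw [this]
  have h2 : (sums m Y).ncard ≤ Z₀.ncard * (1 + d * (2 * m + 1) ^ 2) ^ (2 ^ h) := by
    rw [Set.ncard_eq_toFinset_card _ hXf, Set.ncard_eq_toFinset_card _ hZ₀f]
    have h6 : ∀ x ∈ hXf.toFinset, π x ∈ hZ₀f.toFinset.image π := by
      intro x hx
      rw [Finset.mem_image]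
      obtain ⟨z, hz, hzx⟩ := hbij.surjOn (Set.mem_image_of_mem π (hXf.mem_toFinset.1 hx))
      exact ⟨z, hZ₀f.mem_toFinset.2 hz, hzx⟩
    have h7 := Finset.card_le_mul_card_image_of_maps_to h6
      ((1 + d * (2 * m + 1) ^ 2) ^ (2 ^ h)) (by
        intro c hc
        have h8 := hZ m h hm hmh {x | x ∈ sums m Y ∧ π x = c} (fun x hx => hx.1) (by
          rintro a ⟨ha, ha'⟩ b ⟨hb, hb'⟩
          rw [← hπ, ha', hb'])
        refine le_trans (le_of_eq ?_) h8
        rw [← Set.ncard_coe_finset]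
        congr 1
        ext x
        simp)
    calc hXf.toFinset.card ≤ (1 + d * (2 * m + 1) ^ 2) ^ (2 ^ h) * (hZ₀f.toFinset.image π).card := h7
      _ ≤ (1 + d * (2 * m + 1) ^ 2) ^ (2 ^ h) * hZ₀f.toFinset.card :=
          Nat.mul_le_mul_left _ Finset.card_image_le
      _ = _ := mul_comm _ _
  have h3 : ((sums m Y).ncard : ℝ) ≤ (Z₀.ncard : ℝ) * (1 + d * (2 * m + 1) ^ 2) ^ (2 ^ h) := by
    exact_mod_cast h2
  refine h3.trans ?_
  have hdn : (d : ℝ) ≤ n := by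
    have : d ≤ n := by omega
    exact_mod_cast this
  have hQ : 0 ≤ Q := le_trans (Nat.cast_nonneg _) h1
  rw [hZc] at h1
  have h4 : (1 + (d : ℝ) * (2 * m + 1) ^ 2) ^ (2 ^ h) ≤ (1 + (n : ℝ) * (2 * m + 1) ^ 2) ^ (2 ^ h) := by
    apply pow_le_pow_left₀ (by positivity)
    have : (d : ℝ) * (2 * m + 1) ^ 2 ≤ n * (2 * m + 1) ^ 2 :=
      mul_le_mul_of_nonneg_right hdn (by positivity)
    linarith
  exact mul_le_mul h1 h4 (by positivity) hQ

theorem eventually_small (C : ℝ) (hC : 0 ≤ C) (D : ℕ) :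
    ∃ n₀ : ℕ, ∀ n ≥ n₀, (1 + (n : ℝ) * C) ^ D ≤ 2 ^ n := by
  have h1 := (isLittleO_pow_const_const_pow_of_one_lt (R := ℝ) D (r := 2) (by norm_num)).def
    (c := 1 / (1 + C) ^ D) (by positivity)
  obtain ⟨n₀, hn₀⟩ := Filter.eventually_atTop.1 h1
  refine ⟨max n₀ 1, fun n hn => ?_⟩
  have hn1 : (1 : ℝ) ≤ n := by
    have : 1 ≤ n := le_trans (le_max_right _ _) hn
    exact_mod_cast this
  have h2 := hn₀ n (le_trans (le_max_left _ _) hn)
  rw [Real.norm_of_nonneg (by positivity), Real.norm_of_nonneg (by positivity)] at h2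
  have h3 : 1 + (n : ℝ) * C ≤ (1 + C) * n := by nlinarith
  calc (1 + (n : ℝ) * C) ^ D ≤ ((1 + C) * n) ^ D := pow_le_pow_left₀ (by positivity) h3 D
    _ = (1 + C) ^ D * (n : ℝ) ^ D := by rw [mul_pow]
    _ ≤ (1 + C) ^ D * (1 / (1 + C) ^ D * 2 ^ n) := by
        apply mul_le_mul_of_nonneg_left h2 (by positivity)
    _ = 2 ^ n := by
        rw [← mul_assoc, mul_one_div, div_self (by positivity), one_mul]

theorem t : S_GROW → S_COSET → S_SEC := by
  classical
  intro hGr hC ρ q hρ hq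
  have hlq : 0 ≤ Real.log (2 * q) := Real.log_nonneg (by linarith)
  have hlr : 0 ≤ Real.log (2 * ρ + 1) := Real.log_nonneg (by linarith)
  have hl2 : 0 < Real.log 2 := Real.log_pos (by norm_num)
  set A : ℝ := 185 * Real.log (2 * q) + 480 * Real.log (2 * q) * Real.log (2 * ρ + 1) with hA
  have hA0 : 0 ≤ A := by positivity
  obtain ⟨s₀, hs₀⟩ := exists_nat_gt (20 * A / Real.log 2)
  set s : ℕ := s₀ + 1 with hs
  have hsp : (0 : ℝ) < s := by rw [hs]; positivity
  have hAs : A / s ≤ Real.log 2 / 20 := by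
    rw [div_le_iff₀ hsp]
    have h1 : 20 * A / Real.log 2 < s := hs₀.trans (by rw [hs]; push_cast; linarith)
    rw [div_lt_iff₀ hl2] at h1
    linarith
  obtain ⟨n₁, hn₁⟩ := eventually_small ((2 * ((2 ^ s : ℕ) : ℝ) + 1) ^ 2) (by positivity)
    (2 ^ (2 * s + 1))
  obtain ⟨n₂, hn₂⟩ := exists_nat_gt (20 * Real.log (2 * ρ + 1) / Real.log 2)
  refine ⟨max n₁ n₂, ?_⟩
  intro n hn L hG Y hY hL hr
  rcases Y.eq_empty_or_nonempty with rfl | hne
  · simp only [Set.ncard_empty, Nat.cast_zero]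
    positivity
  have hm : 1 ≤ 2 ^ s := Nat.one_le_two_pow
  have hmh : (2 ^ s) ^ 2 < 2 ^ (2 * s + 1) := by
    rw [← pow_mul, mul_comm s 2]
    exact Nat.pow_lt_pow_right (by norm_num) (by omega)
  have h1 := card_sums hC L ρ (q ^ n) hG Y hY hne hL hr (2 ^ s) (2 * s + 1) hm hmh
  have h2 := hn₁ n (le_trans (le_max_left _ _) hn)
  have h2q : (0 : ℝ) < 2 * q := by linarith
  set B : ℝ := (2 * q) ^ ((n : ℝ) / s) with hB
  have hBp : 0 < B := Real.rpow_pos_of_pos h2q _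
  have hB1 : 1 ≤ B := Real.one_le_rpow (by linarith) (by positivity)
  have hBs : B ^ s = (2 * q) ^ n := by
    rw [hB, ← Real.rpow_natCast, ← Real.rpow_mul h2q.le, div_mul_cancel₀ _ hsp.ne',
      Real.rpow_natCast]
  have h3 : ((sums (2 ^ s) Y).ncard : ℝ) ≤ B ^ s := by
    rw [hBs, mul_pow, mul_comm ((2 : ℝ) ^ n)]
    exact h1.trans (mul_le_mul_of_nonneg_left h2 (by positivity))
  obtain ⟨S, T, hS, hT, hcov⟩ := hGr (E n) (by
    intro k x hk hx
    rw [← Nat.cast_smul_eq_nsmul ℝ] at hx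
    rcases smul_eq_zero.1 hx with h | h
    · exact absurd (Nat.cast_eq_zero.1 h) hk
    · exact h) Y s B hY hne hB1 h3
  choose! τ hτT hτ using hcov
  have h4 : (Y.ncard : ℝ) ≤ (T.card : ℝ) * (2 * ρ + 1) ^ S.card := by
    rw [Set.ncard_eq_toFinset_card Y hY,
      Finset.card_eq_sum_card_fiberwise (f := τ) (t := T) (fun x hx => hτT x (by simpa using hx))]
    push_cast
    rw [← nsmul_eq_mul]
    apply Finset.sum_le_card_nsmul
    intro t ht
    have h5 := pack S ρ (by linarith) {x | x ∈ Y ∧ τ x = t} (hY.subset fun x hx => hx.1) (by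
      rintro x ⟨hx, hx'⟩ y ⟨hy, hy'⟩
      have h6 := AddSubgroup.sub_mem _ (hτ x hx) (hτ y hy)
      rw [hx', hy'] at h6
      have e : x - t - (y - t) = x - y := by abel
      rwa [e] at h6) (fun x hx y hy => (hL x hx.1 y hy.1).2) (fun x hx y hy hxy =>
        hG.sep _ (hL x hx.1 y hy.1).1 (sub_ne_zero.2 hxy))
    refine le_trans (le_of_eq ?_) h5
    rw [← Set.ncard_coe_finset]
    congr 2
    ext x
    simp
  refine h4.trans ?_
  have hlB : Real.log B = (n : ℝ) / s * Real.log (2 * q) := by rw [hB, Real.log_rpow h2q]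
  have h2r : (0 : ℝ) < 2 * ρ + 1 := by linarith
  have h6 : (T.card : ℝ) * (2 * ρ + 1) ^ S.card ≤
      Real.exp (185 * Real.log B + (480 * Real.log B + 1) * Real.log (2 * ρ + 1)) := by
    rw [Real.exp_add]
    apply mul_le_mul _ _ (by positivity) (Real.exp_pos _).le
    · refine hT.trans (le_of_eq ?_)
      rw [show (185 : ℝ) * Real.log B = ((185 : ℕ) : ℝ) * Real.log B by norm_num, Real.exp_nat_mul,
        Real.exp_log hBp]
    · rw [← Real.rpow_natCast, Real.rpow_def_of_pos h2r, Real.exp_le_exp, mul_comm]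
      exact mul_le_mul_of_nonneg_right hS hlr
  refine h6.trans ?_
  rw [Real.rpow_def_of_pos (by norm_num : (0 : ℝ) < 2), Real.exp_le_exp, hlB]
  have h7 : 185 * ((n : ℝ) / s * Real.log (2 * q)) +
      (480 * ((n : ℝ) / s * Real.log (2 * q)) + 1) * Real.log (2 * ρ + 1) =
      n * (A / s) + Real.log (2 * ρ + 1) := by
    rw [hA]
    field_simp
    ring
  rw [h7]
  have h8 : (n : ℝ) * (A / s) ≤ n * (Real.log 2 / 20) :=
    mul_le_mul_of_nonneg_left hAs (Nat.cast_nonneg _)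
  have h9 : Real.log (2 * ρ + 1) ≤ n * (Real.log 2 / 20) := by
    have h10 : (n₂ : ℝ) ≤ n := by exact_mod_cast le_trans (le_max_right _ _) hn
    have h11 := hn₂.trans_le h10
    rw [div_lt_iff₀ hl2] at h11
    linarith
  linarith

end Run7.h814.PFN.SEC
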