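import Pool.Agent.Run7.h814.PFN.Iface

set_option autoImplicit false

namespace Run7.h814.PFN.SIZE

theorem t : S_SIZE := by
  intro n p b hp γ
  classical
  have hp0 : (0 : ℝ) < p := by exact_mod_cast hp.out.pos
  set C : Finset (Fin n → ℤ) := Fintype.piFinset (fun _ : Fin n => Finset.Ico (0 : ℤ) b) with hC
  have hCcard : C.card = b ^ n := by
    rw [hC, Fintype.card_piFinset]
    simp
  set f : (Fin n → ℤ) → ZMod p := fun x => ∑ i, γ i * (x i : ZMod p) with hf
  have hpig : ∃ y ∈ (Finset.univ : Finset (ZMod p)),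
      ((b : ℝ) ^ n / p) ≤ ((C.filter (fun x => f x = y)).card : ℝ) := by
    apply Finset.exists_le_card_fiber_of_nsmul_le_card_of_maps_to
    · intro a _; exact Finset.mem_univ _
    · exact Finset.univ_nonempty
    · rw [Finset.card_univ, ZMod.card, hCcard, nsmul_eq_mul]
      push_cast
      rw [mul_div_cancel₀ _ hp0.ne']
  obtain ⟨y, _, hy⟩ := hpig
  set D := C.filter (fun x => f x = y) with hD
  by_cases hne : D.Nonempty
  · obtain ⟨x₀, hx₀⟩ := hne
    refine ⟨D.image (fun x => x - x₀), ?_, ?_⟩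
    · intro z hz
      obtain ⟨x, hx, rfl⟩ := Finset.mem_image.1 hz
      rw [hD, Finset.mem_filter] at hx hx₀
      constructor
      · have h1 : ∑ i, γ i * (((x - x₀) i : ℤ) : ZMod p) = f x - f x₀ := by
          simp only [hf, Pi.sub_apply, Int.cast_sub, mul_sub, Finset.sum_sub_distrib]
        rw [h1, hx.2, hx₀.2, sub_self]
      · have h2 : ∀ i, (((x - x₀) i : ℤ) : ℝ) ^ 2 ≤ (b : ℝ) ^ 2 := by
          intro i
          have hxi := Finset.mem_Ico.1 (Fintype.mem_piFinset.1 hx.1 i)
          have hx0i := Finset.mem_Ico.1 (Fintype.mem_piFinset.1 hx₀.1 i)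
          have a1 : (0 : ℝ) ≤ (x i : ℝ) := by exact_mod_cast hxi.1
          have a2 : (x i : ℝ) ≤ b := by exact_mod_cast hxi.2.le
          have a3 : (0 : ℝ) ≤ (x₀ i : ℝ) := by exact_mod_cast hx0i.1
          have a4 : (x₀ i : ℝ) ≤ b := by exact_mod_cast hx0i.2.le
          rw [Pi.sub_apply, Int.cast_sub]
          apply sq_le_sq'
          · linarith
          · linarith
        calc ∑ i, (((x - x₀) i : ℤ) : ℝ) ^ 2 ≤ ∑ _i : Fin n, (b : ℝ) ^ 2 :=
              Finset.sum_le_sum fun i _ => h2 i
          _ = (b : ℝ) ^ 2 * n := by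
              rw [Finset.sum_const, Finset.card_univ, Fintype.card_fin, nsmul_eq_mul, mul_comm]
    · have hcard : (D.image (fun x => x - x₀)).card = D.card := by
        apply Finset.card_image_of_injective
        intro a c h
        simpa using h
      rw [hcard]
      rw [div_le_iff₀ hp0] at hy
      linarith
  · rw [Finset.not_nonempty_iff_eq_empty] at hne
    refine ⟨∅, by simp, ?_⟩
    rw [hne] at hy
    rw [div_le_iff₀ hp0] at hy
    simpa using hy

end Run7.h814.PFN.SIZE
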